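import Mathlib

/-! Cross-intersecting families of two-element sets: either a common star, or few. -/

namespace H287R3.Ext

open Finset

variable {K : Type} [DecidableEq K]

/-- If a two-element family `B` all of whose members contain `q` has at least three members, then
every two-element set meeting all members contains `q`. -/
theorem mem_of_meets {B : Finset (Finset K)} {q : K} (hB : ∀ T ∈ B, T.card = 2 ∧ q ∈ T)
    (h3 : 3 ≤ B.card) {S : Finset K} (hS : S.card = 2) (hm : ∀ T ∈ B, (S ∩ T).Nonempty) :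
    q ∈ S := by
  by_contra hq
  have hsub : B ⊆ S.image (fun x => ({q, x} : Finset K)) := by
    intro T hT
    obtain ⟨x, hx⟩ := hm T hT
    rw [mem_inter] at hx
    refine mem_image.2 ⟨x, hx.1, ?_⟩
    have hqx : q ≠ x := by rintro rfl; exact hq hx.1
    apply eq_of_subset_of_card_le
    · intro y hy
      rw [mem_insert, mem_singleton] at hy
      rcases hy with rfl | rfl
      · exact (hB T hT).2
      · exact hx.2
    · rw [(hB T hT).1, card_pair hqx]
  have := card_le_card hsub
  have := (card_image_le (s := S) (f := fun x => ({q, x} : Finset K)))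
  omega

/-- Main combinatorial fact on states `(h, c, s, e)`. -/
theorem star_or_few [Fintype K] (hK : Fintype.card K = 16)
    (T : Finset (Bool × K × K × K))
    (hd : ∀ σ ∈ T, σ.2.1 ≠ σ.2.2.1 ∧ σ.2.1 ≠ σ.2.2.2 ∧ σ.2.2.1 ≠ σ.2.2.2)
    (hx : ∀ σ ∈ T, ∀ τ ∈ T,
      (({σ.2.1, σ.2.2.1} : Finset K) ∩ ({τ.2.1, τ.2.2.2} : Finset K)).Nonempty) :
    (∃ c, ∀ σ ∈ T, σ.2.1 = c) ∨ T.card ≤ 256 := by
  classical
  let fA : Bool × K × K × K → Finset K := fun σ => {σ.2.1, σ.2.2.1}
  let fB : Bool × K × K × K → Finset K := fun σ => {σ.2.1, σ.2.2.2}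
  have hA2 : ∀ S ∈ T.image fA, S.card = 2 := by
    intro S hS
    obtain ⟨σ, hσ, rfl⟩ := mem_image.1 hS
    exact card_pair (hd σ hσ).1
  have hB2 : ∀ S ∈ T.image fB, S.card = 2 := by
    intro S hS
    obtain ⟨σ, hσ, rfl⟩ := mem_image.1 hS
    exact card_pair (hd σ hσ).2.1
  have hcross : ∀ S ∈ T.image fA, ∀ R ∈ T.image fB, (S ∩ R).Nonempty := by
    intro S hS R hR
    obtain ⟨σ, hσ, rfl⟩ := mem_image.1 hS
    obtain ⟨τ, hτ, rfl⟩ := mem_image.1 hR
    exact hx σ hσ τ hτ
  have hfibA : T.card ≤ 64 * (T.image fA).card := by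
    refine card_le_mul_card_image T 64 ?_
    intro S hS
    have h2 := hA2 S hS
    have hinj : (({x ∈ T | fA x = S} : Finset _).image
        (fun σ => (σ.1, σ.2.1, σ.2.2.2))).card = ({x ∈ T | fA x = S} : Finset _).card := by
      apply card_image_of_injOn
      rintro ⟨h, c, s, e⟩ h1 ⟨h', c', s', e'⟩ h2' heq
      simp only [coe_filter, Set.mem_setOf_eq] at h1 h2'
      simp only [Prod.mk.injEq] at heq
      obtain ⟨rfl, rfl, rfl⟩ := heq
      have e1 : ({c, s} : Finset K) = {c, s'} := h1.2.trans h2'.2.symm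
      have hs : s ∈ ({c, s'} : Finset K) := by rw [← e1]; simp
      rw [mem_insert, mem_singleton] at hs
      rcases hs with hs | hs
      · exact absurd hs.symm (hd _ h1.1).1
      · rw [hs]
    rw [← hinj]
    have hsub : ({x ∈ T | fA x = S} : Finset _).image (fun σ => (σ.1, σ.2.1, σ.2.2.2)) ⊆
        (univ : Finset Bool) ×ˢ (S ×ˢ (univ : Finset K)) := by
      intro p hp
      obtain ⟨σ, hσ, rfl⟩ := mem_image.1 hp
      rw [mem_filter] at hσ
      simp only [mem_product, mem_univ, true_and, and_true]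
      rw [← hσ.2]
      simp [fA]
    refine (card_le_card hsub).trans ?_
    rw [card_product, card_product, h2, card_univ, card_univ, hK, Fintype.card_bool]
  have hfibB : T.card ≤ 64 * (T.image fB).card := by
    refine card_le_mul_card_image T 64 ?_
    intro S hS
    have h2 := hB2 S hS
    have hinj : (({x ∈ T | fB x = S} : Finset _).image
        (fun σ => (σ.1, σ.2.1, σ.2.2.1))).card = ({x ∈ T | fB x = S} : Finset _).card := by
      apply card_image_of_injOn
      rintro ⟨h, c, s, e⟩ h1 ⟨h', c', s', e'⟩ h2' heq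
      simp only [coe_filter, Set.mem_setOf_eq] at h1 h2'
      simp only [Prod.mk.injEq] at heq
      obtain ⟨rfl, rfl, rfl⟩ := heq
      have e1 : ({c, e} : Finset K) = {c, e'} := h1.2.trans h2'.2.symm
      have hs : e ∈ ({c, e'} : Finset K) := by rw [← e1]; simp
      rw [mem_insert, mem_singleton] at hs
      rcases hs with hs | hs
      · exact absurd hs.symm (hd _ h1.1).2.1
      · rw [hs]
    rw [← hinj]
    have hsub : ({x ∈ T | fB x = S} : Finset _).image (fun σ => (σ.1, σ.2.1, σ.2.2.1)) ⊆
        (univ : Finset Bool) ×ˢ (S ×ˢ (univ : Finset K)) := by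
      intro p hp
      obtain ⟨σ, hσ, rfl⟩ := mem_image.1 hp
      rw [mem_filter] at hσ
      simp only [mem_product, mem_univ, true_and, and_true]
      rw [← hσ.2]
      simp [fB]
    refine (card_le_card hsub).trans ?_
    rw [card_product, card_product, h2, card_univ, card_univ, hK, Fintype.card_bool]
  by_cases hA5 : (T.image fA).card ≤ 4
  · right; omega
  by_cases hB5 : (T.image fB).card ≤ 4
  · right; omega
  left
  -- pick a member of `A`
  have hAne : (T.image fA).Nonempty := by
    rw [← card_pos]; omega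
  obtain ⟨S0, hS0⟩ := hAne
  obtain ⟨p, q, hpq, hS0e⟩ := card_eq_two.1 (hA2 S0 hS0)
  -- members of `B` through `p` or `q`
  have hcov : T.image fB ⊆ (T.image fB).filter (p ∈ ·) ∪ (T.image fB).filter (q ∈ ·) := by
    intro R hR
    obtain ⟨x, hx'⟩ := hcross S0 hS0 R hR
    rw [mem_inter, hS0e, mem_insert, mem_singleton] at hx'
    rw [mem_union, mem_filter, mem_filter]
    rcases hx' with ⟨rfl | rfl, h⟩
    · exact Or.inl ⟨hR, h⟩
    · exact Or.inr ⟨hR, h⟩
  have hcard := (card_le_card hcov).trans (card_union_le _ _)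
  obtain ⟨u, hu⟩ : ∃ u, 3 ≤ ((T.image fB).filter (u ∈ ·)).card := by
    by_contra hcon
    push Not at hcon
    have h1 := hcon p
    have h2 := hcon q
    omega
  have hAu : ∀ S ∈ T.image fA, u ∈ S := by
    intro S hS
    refine mem_of_meets (B := (T.image fB).filter (u ∈ ·)) ?_ hu (hA2 S hS) ?_
    · intro R hR
      rw [mem_filter] at hR
      exact ⟨hB2 R hR.1, hR.2⟩
    · intro R hR
      rw [mem_filter] at hR
      exact hcross S hS R hR.1
  have hBu : ∀ R ∈ T.image fB, u ∈ R := by
    intro R hR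
    refine mem_of_meets (B := T.image fA) ?_ (by omega) (hB2 R hR) ?_
    · intro S hS
      exact ⟨hA2 S hS, hAu S hS⟩
    · intro S hS
      rw [inter_comm]
      exact hcross S hS R hR
  refine ⟨u, fun σ hσ => ?_⟩
  have h1 := hAu _ (mem_image_of_mem fA hσ)
  have h2 := hBu _ (mem_image_of_mem fB hσ)
  simp only [fA, fB, mem_insert, mem_singleton] at h1 h2
  rcases h1 with h1 | h1
  · exact h1.symm
  · rcases h2 with h2 | h2
    · exact h2.symm
    · exact absurd (h1.symm.trans h2) (hd σ hσ).2.2

end H287R3.Ext
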