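import Pool.Agent.H287R3.Ext.Defs

/-! Combinators for protocols. -/

namespace ExtInfo

open Finset

variable {X Y O X' Y' O' : Type}

/-- The probability `0` or `1`. -/
noncomputable def b2u (b : Bool) : unitInterval := if b then 1 else 0

theorem b2u_true : ((b2u true : unitInterval) : ℝ) = 1 := by simp [b2u]

theorem b2u_false : ((b2u false : unitInterval) : ℝ) = 0 := by simp [b2u]

noncomputable def aliceD (f : X → Bool) (k : Bool → Protocol X Y O) : Protocol X Y O :=
  .alice (fun x => b2u (f x)) (k false) (k true)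

noncomputable def bobD (f : Y → Bool) (k : Bool → Protocol X Y O) : Protocol X Y O :=
  .bob (fun y => b2u (f y)) (k false) (k true)

theorem bits_aliceD (f : X → Bool) (k : Bool → Protocol X Y O) (x : X) (y : Y) :
    bits (aliceD f k) x y = 1 + bits (k (f x)) x y := by
  change 1 + (1 - ((b2u (f x) : unitInterval) : ℝ)) * bits (k false) x y
    + ((b2u (f x) : unitInterval) : ℝ) * bits (k true) x y = _
  cases f x
  · rw [b2u_false]; ring
  · rw [b2u_true]; ring

theorem bits_bobD (f : Y → Bool) (k : Bool → Protocol X Y O) (x : X) (y : Y) :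
    bits (bobD f k) x y = 1 + bits (k (f y)) x y := by
  change 1 + (1 - ((b2u (f y) : unitInterval) : ℝ)) * bits (k false) x y
    + ((b2u (f y) : unitInterval) : ℝ) * bits (k true) x y = _
  cases f y
  · rw [b2u_false]; ring
  · rw [b2u_true]; ring

theorem all_aliceD {f : X → Bool} {k : Bool → Protocol X Y O} {x : X} {y : Y} {φ : O → Prop}
    (h : All (k (f x)) x y φ) : All (aliceD f k) x y φ := by
  change (((b2u (f x) : unitInterval) : ℝ) ≠ 1 → All (k false) x y φ) ∧
    (((b2u (f x) : unitInterval) : ℝ) ≠ 0 → All (k true) x y φ)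
  cases hf : f x
  · rw [hf] at h
    rw [b2u_false]; simp [h]
  · rw [hf] at h
    rw [b2u_true]; simp [h]

theorem all_bobD {f : Y → Bool} {k : Bool → Protocol X Y O} {x : X} {y : Y} {φ : O → Prop}
    (h : All (k (f y)) x y φ) : All (bobD f k) x y φ := by
  change (((b2u (f y) : unitInterval) : ℝ) ≠ 1 → All (k false) x y φ) ∧
    (((b2u (f y) : unitInterval) : ℝ) ≠ 0 → All (k true) x y φ)
  cases hf : f y
  · rw [hf] at h
    rw [b2u_false]; simp [h]
  · rw [hf] at h
    rw [b2u_true]; simp [h]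

/-- Sequential composition. -/
def bind : Protocol X Y O → (O → Protocol X Y O') → Protocol X Y O'
  | .output o, k => k o
  | .alice p t₀ t₁, k => .alice p (bind t₀ k) (bind t₁ k)
  | .bob p t₀ t₁, k => .bob p (bind t₀ k) (bind t₁ k)
  | .coin p t₀ t₁, k => .coin p (bind t₀ k) (bind t₁ k)

theorem all_true (t : Protocol X Y O) (x : X) (y : Y) : All t x y (fun _ => True) := by
  induction t with
  | output o => trivial
  | alice p t₀ t₁ h₀ h₁ => exact ⟨fun _ => h₀, fun _ => h₁⟩
  | bob p t₀ t₁ h₀ h₁ => exact ⟨fun _ => h₀, fun _ => h₁⟩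
  | coin p t₀ t₁ h₀ h₁ => exact ⟨fun _ => h₀, fun _ => h₁⟩

theorem all_bind {t : Protocol X Y O} {k : O → Protocol X Y O'} {x : X} {y : Y} {φ : O → Prop}
    {ψ : O' → Prop} (h : All t x y φ) (hk : ∀ o, φ o → All (k o) x y ψ) :
    All (bind t k) x y ψ := by
  induction t with
  | output o => exact hk o h
  | alice p t₀ t₁ h₀ h₁ => exact ⟨fun hp => h₀ (h.1 hp), fun hp => h₁ (h.2 hp)⟩
  | bob p t₀ t₁ h₀ h₁ => exact ⟨fun hp => h₀ (h.1 hp), fun hp => h₁ (h.2 hp)⟩
  | coin p t₀ t₁ h₀ h₁ => exact ⟨fun hp => h₀ (h.1 hp), fun hp => h₁ (h.2 hp)⟩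

theorem bits_bind_le {t : Protocol X Y O} {k : O → Protocol X Y O'} {x : X} {y : Y}
    {φ : O → Prop} {C : ℝ} (h : All t x y φ) (hk : ∀ o, φ o → bits (k o) x y ≤ C) :
    bits (bind t k) x y ≤ bits t x y + C := by
  induction t with
  | output o => simpa [bind, bits] using hk o h
  | alice p t₀ t₁ h₀ h₁ =>
    simp only [bind, bits]
    have p0 := (p x).2.1
    have p1 := (p x).2.2
    have a0 : (1 - (p x : ℝ)) * bits (bind t₀ k) x y ≤ (1 - (p x : ℝ)) * (bits t₀ x y + C) := by
      by_cases hp : (p x : ℝ) = 1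
      · rw [hp]; simp
      · exact mul_le_mul_of_nonneg_left (h₀ (h.1 hp)) (by linarith)
    have a1 : (p x : ℝ) * bits (bind t₁ k) x y ≤ (p x : ℝ) * (bits t₁ x y + C) := by
      by_cases hp : (p x : ℝ) = 0
      · rw [hp]; simp
      · exact mul_le_mul_of_nonneg_left (h₁ (h.2 hp)) p0
    linarith
  | bob p t₀ t₁ h₀ h₁ =>
    simp only [bind, bits]
    have p0 := (p y).2.1
    have p1 := (p y).2.2
    have a0 : (1 - (p y : ℝ)) * bits (bind t₀ k) x y ≤ (1 - (p y : ℝ)) * (bits t₀ x y + C) := by
      by_cases hp : (p y : ℝ) = 1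
      · rw [hp]; simp
      · exact mul_le_mul_of_nonneg_left (h₀ (h.1 hp)) (by linarith)
    have a1 : (p y : ℝ) * bits (bind t₁ k) x y ≤ (p y : ℝ) * (bits t₁ x y + C) := by
      by_cases hp : (p y : ℝ) = 0
      · rw [hp]; simp
      · exact mul_le_mul_of_nonneg_left (h₁ (h.2 hp)) p0
    linarith
  | coin p t₀ t₁ h₀ h₁ =>
    simp only [bind, bits]
    have p0 := p.2.1
    have p1 := p.2.2
    have a0 : (1 - (p : ℝ)) * bits (bind t₀ k) x y ≤ (1 - (p : ℝ)) * (bits t₀ x y + C) := by
      by_cases hp : (p : ℝ) = 1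
      · rw [hp]; simp
      · exact mul_le_mul_of_nonneg_left (h₀ (h.1 hp)) (by linarith)
    have a1 : (p : ℝ) * bits (bind t₁ k) x y ≤ (p : ℝ) * (bits t₁ x y + C) := by
      by_cases hp : (p : ℝ) = 0
      · rw [hp]; simp
      · exact mul_le_mul_of_nonneg_left (h₁ (h.2 hp)) p0
    linarith

/-- Run the protocol on transformed inputs. -/
def comap (fX : X' → X) (fY : Y' → Y) : Protocol X Y O → Protocol X' Y' O
  | .output o => .output o
  | .alice p t₀ t₁ => .alice (fun x => p (fX x)) (comap fX fY t₀) (comap fX fY t₁)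
  | .bob p t₀ t₁ => .bob (fun y => p (fY y)) (comap fX fY t₀) (comap fX fY t₁)
  | .coin p t₀ t₁ => .coin p (comap fX fY t₀) (comap fX fY t₁)

theorem bits_comap (fX : X' → X) (fY : Y' → Y) (t : Protocol X Y O) (x : X') (y : Y') :
    bits (comap fX fY t) x y = bits t (fX x) (fY y) := by
  induction t with
  | output o => rfl
  | alice p t₀ t₁ h₀ h₁ => simp only [comap, bits, h₀, h₁]
  | bob p t₀ t₁ h₀ h₁ => simp only [comap, bits, h₀, h₁]
  | coin p t₀ t₁ h₀ h₁ => simp only [comap, bits, h₀, h₁]

theorem all_comap {fX : X' → X} {fY : Y' → Y} {t : Protocol X Y O} {x : X'} {y : Y'}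
    {φ : O → Prop} (h : All t (fX x) (fY y) φ) : All (comap fX fY t) x y φ := by
  induction t with
  | output o => exact h
  | alice p t₀ t₁ h₀ h₁ => exact ⟨fun hp => h₀ (h.1 hp), fun hp => h₁ (h.2 hp)⟩
  | bob p t₀ t₁ h₀ h₁ => exact ⟨fun hp => h₀ (h.1 hp), fun hp => h₁ (h.2 hp)⟩
  | coin p t₀ t₁ h₀ h₁ => exact ⟨fun hp => h₀ (h.1 hp), fun hp => h₁ (h.2 hp)⟩

/-- Run a protocol on the left part and then one on the right part of the input. -/
def both {ι κ O₁ O₂ : Type} (t₁ : Protocol (ι → X) (ι → Y) O₁) (t₂ : Protocol (κ → X) (κ → Y) O₂)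
    (c : O₁ → O₂ → O) : Protocol (ι ⊕ κ → X) (ι ⊕ κ → Y) O :=
  bind (comap (fun x i => x (Sum.inl i)) (fun y i => y (Sum.inl i)) t₁) fun o₁ =>
    bind (comap (fun x i => x (Sum.inr i)) (fun y i => y (Sum.inr i)) t₂) fun o₂ =>
      .output (c o₁ o₂)

theorem all_both {ι κ O₁ O₂ : Type} {t₁ : Protocol (ι → X) (ι → Y) O₁}
    {t₂ : Protocol (κ → X) (κ → Y) O₂} {c : O₁ → O₂ → O} {x : ι ⊕ κ → X} {y : ι ⊕ κ → Y}
    {φ₁ : O₁ → Prop} {φ₂ : O₂ → Prop} {ψ : O → Prop}
    (h₁ : All t₁ (fun i => x (Sum.inl i)) (fun i => y (Sum.inl i)) φ₁)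
    (h₂ : All t₂ (fun i => x (Sum.inr i)) (fun i => y (Sum.inr i)) φ₂)
    (h : ∀ o₁ o₂, φ₁ o₁ → φ₂ o₂ → ψ (c o₁ o₂)) : All (both t₁ t₂ c) x y ψ :=
  all_bind (all_comap h₁) fun o₁ ho₁ => all_bind (all_comap h₂) fun o₂ ho₂ => h o₁ o₂ ho₁ ho₂

theorem bits_both {ι κ O₁ O₂ : Type} (t₁ : Protocol (ι → X) (ι → Y) O₁)
    (t₂ : Protocol (κ → X) (κ → Y) O₂) (c : O₁ → O₂ → O) (x : ι ⊕ κ → X) (y : ι ⊕ κ → Y) :
    bits (both t₁ t₂ c) x y ≤ bits t₁ (fun i => x (Sum.inl i)) (fun i => y (Sum.inl i))
      + bits t₂ (fun i => x (Sum.inr i)) (fun i => y (Sum.inr i)) := by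
  unfold both
  refine (bits_bind_le (C := bits t₂ (fun i => x (Sum.inr i)) (fun i => y (Sum.inr i)))
    (all_true _ _ _) fun o₁ _ => ?_).trans ?_
  · refine (bits_bind_le (C := 0) (all_true _ _ _) fun o₂ _ => ?_).trans ?_
    · exact le_refl _
    · rw [bits_comap, add_zero]
  · rw [bits_comap]

section tell

variable [DecidableEq X] [DecidableEq Y]

/-- Alice tells which member of the list her input is. -/
noncomputable def tellA (k : X → Protocol X Y O) (d : Protocol X Y O) : List X → Protocol X Y O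
  | [] => d
  | a :: l => aliceD (fun x => decide (x = a)) (fun b => if b then k a else tellA k d l)

theorem all_tellA {k : X → Protocol X Y O} {d : Protocol X Y O} {x : X} {y : Y} {φ : O → Prop}
    (h : All (k x) x y φ) : (l : List X) → x ∈ l → All (tellA k d l) x y φ
  | [], hx => by simp at hx
  | a :: l, hx => by
    apply all_aliceD
    by_cases hxa : x = a
    · subst hxa
      simpa using h
    · have hx' : x ∈ l := by
        rcases List.mem_cons.1 hx with h' | h'
        · exact absurd h' hxa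
        · exact h'
      simpa [hxa] using all_tellA h l hx'

/-- Bob tells which member of the list his input is. -/
noncomputable def tellB (k : Y → Protocol X Y O) (d : Protocol X Y O) : List Y → Protocol X Y O
  | [] => d
  | a :: l => bobD (fun x => decide (x = a)) (fun b => if b then k a else tellB k d l)

theorem all_tellB {k : Y → Protocol X Y O} {d : Protocol X Y O} {x : X} {y : Y} {φ : O → Prop}
    (h : All (k y) x y φ) : (l : List Y) → y ∈ l → All (tellB k d l) x y φ
  | [], hx => by simp at hx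
  | a :: l, hx => by
    apply all_bobD
    by_cases hxa : y = a
    · subst hxa
      simpa using h
    · have hx' : y ∈ l := by
        rcases List.mem_cons.1 hx with h' | h'
        · exact absurd h' hxa
        · exact h'
      simpa [hxa] using all_tellB h l hx'

/-- The trivial protocol: both players tell their whole inputs. -/
noncomputable def tellAll [Fintype X] [Fintype Y] (f : X → Y → O) (o : O) : Protocol X Y O :=
  tellA (fun x => tellB (fun y => .output (f x y)) (.output o) univ.toList) (.output o)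
    univ.toList

theorem all_tellAll [Fintype X] [Fintype Y] (f : X → Y → O) (o : O) (x : X) (y : Y) :
    All (tellAll f o) x y (fun o' => o' = f x y) := by
  apply all_tellA _ _ (by simp)
  apply all_tellB _ _ (by simp)
  rfl

end tell

/-- Bob sends the bits `f y j`, `j ∈ l`. -/
noncomputable def sendB {J : Type} [DecidableEq J] (f : Y → J → Bool)
    (k : (J → Bool) → Protocol X Y O) : List J → (J → Bool) → Protocol X Y O
  | [], acc => k acc
  | j :: l, acc => bobD (fun y => f y j) (fun b => sendB f k l (Function.update acc j b))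

theorem sendB_acc {J : Type} [DecidableEq J] (g : J → Bool) (j : J) (l : List J)
    (acc : J → Bool) :
    (fun i => if i ∈ l then g i else Function.update acc j (g j) i) =
      fun i => if i ∈ j :: l then g i else acc i := by
  funext i
  by_cases h1 : i ∈ l
  · simp [h1]
  · by_cases h2 : i = j
    · subst h2; simp
    · simp [h1, h2]

theorem bits_sendB {J : Type} [DecidableEq J] (f : Y → J → Bool)
    (k : (J → Bool) → Protocol X Y O) (x : X) (y : Y) : (l : List J) → (acc : J → Bool) →
    bits (sendB f k l acc) x y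
      = l.length + bits (k (fun i => if i ∈ l then f y i else acc i)) x y
  | [], acc => by simp [sendB]
  | j :: l, acc => by
    rw [sendB, bits_bobD, bits_sendB f k x y l, sendB_acc (f y) j l acc]
    push_cast [List.length_cons]
    ring

theorem all_sendB {J : Type} [DecidableEq J] (f : Y → J → Bool)
    (k : (J → Bool) → Protocol X Y O) (x : X) (y : Y) (φ : O → Prop) :
    (l : List J) → (acc : J → Bool) →
    All (k (fun i => if i ∈ l then f y i else acc i)) x y φ → All (sendB f k l acc) x y φ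
  | [], acc, h => by simpa [sendB] using h
  | j :: l, acc, h => by
    rw [sendB]
    apply all_bobD
    apply all_sendB f k x y φ l
    rw [sendB_acc (f y) j l acc]
    exact h

end ExtInfo
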