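import Mathlib

/-!
# Two-party protocols with private and public randomness, external information, average-case
communication

* `Protocol X Y O`: finite protocol trees.  At a node of Alice (Bob) she (he) sends one bit, which is
  `1` with a probability that depends on her input `x` (his input `y`) and on the node, that is, on
  the bits sent so far.  At a `coin` node a public coin is tossed, which both players see; it is not
  counted as a bit sent, but its outcome is part of the transcript.  A leaf carries the output of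
  the protocol.
* `Transcript t`: the complete transcripts of the protocol `t` (its leaves).
* `prob t v x y`: the probability of the transcript `v` on the input `(x, y)`.
-/

namespace ExtInfo

/-- A two-party protocol (a finite binary tree) with private and public randomness. -/
inductive Protocol (X Y O : Type) : Type
  | output (o : O) : Protocol X Y O
  | alice (p : X → unitInterval) (t₀ t₁ : Protocol X Y O) : Protocol X Y O
  | bob (p : Y → unitInterval) (t₀ t₁ : Protocol X Y O) : Protocol X Y O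
  | coin (p : unitInterval) (t₀ t₁ : Protocol X Y O) : Protocol X Y O

variable {X Y O : Type}

/-- The complete transcripts (leaves) of a protocol. -/
def Transcript : Protocol X Y O → Type
  | .output _ => Unit
  | .alice _ t₀ t₁ => Transcript t₀ ⊕ Transcript t₁
  | .bob _ t₀ t₁ => Transcript t₀ ⊕ Transcript t₁
  | .coin _ t₀ t₁ => Transcript t₀ ⊕ Transcript t₁

instance instFintypeTranscript : (t : Protocol X Y O) → Fintype (Transcript t)
  | .output _ => inferInstanceAs (Fintype Unit)
  | .alice _ t₀ t₁ =>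
    @instFintypeSum (Transcript t₀) (Transcript t₁) (instFintypeTranscript t₀)
      (instFintypeTranscript t₁)
  | .bob _ t₀ t₁ =>
    @instFintypeSum (Transcript t₀) (Transcript t₁) (instFintypeTranscript t₀)
      (instFintypeTranscript t₁)
  | .coin _ t₀ t₁ =>
    @instFintypeSum (Transcript t₀) (Transcript t₁) (instFintypeTranscript t₀)
      (instFintypeTranscript t₁)

/-- The probability that the transcript is `v` when the inputs are `x` and `y`. -/
noncomputable def prob : (t : Protocol X Y O) → Transcript t → X → Y → ℝ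
  | .output _, _, _, _ => 1
  | .alice p t₀ _, Sum.inl v, x, y => (1 - (p x : ℝ)) * prob t₀ v x y
  | .alice p _ t₁, Sum.inr v, x, y => (p x : ℝ) * prob t₁ v x y
  | .bob p t₀ _, Sum.inl v, x, y => (1 - (p y : ℝ)) * prob t₀ v x y
  | .bob p _ t₁, Sum.inr v, x, y => (p y : ℝ) * prob t₁ v x y
  | .coin p t₀ _, Sum.inl v, x, y => (1 - (p : ℝ)) * prob t₀ v x y
  | .coin p _ t₁, Sum.inr v, x, y => (p : ℝ) * prob t₁ v x y

/-- The output of the protocol, which is determined by the transcript. -/
def out : (t : Protocol X Y O) → Transcript t → O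
  | .output o, _ => o
  | .alice _ t₀ _, Sum.inl v => out t₀ v
  | .alice _ _ t₁, Sum.inr v => out t₁ v
  | .bob _ t₀ _, Sum.inl v => out t₀ v
  | .bob _ _ t₁, Sum.inr v => out t₁ v
  | .coin _ t₀ _, Sum.inl v => out t₀ v
  | .coin _ _ t₁, Sum.inr v => out t₁ v

/-- The number of bits sent in a transcript (public coins are not counted). -/
def len : (t : Protocol X Y O) → Transcript t → ℕ
  | .output _, _ => 0
  | .alice _ t₀ _, Sum.inl v => len t₀ v + 1
  | .alice _ _ t₁, Sum.inr v => len t₁ v + 1
  | .bob _ t₀ _, Sum.inl v => len t₀ v + 1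
  | .bob _ _ t₁, Sum.inr v => len t₁ v + 1
  | .coin _ t₀ _, Sum.inl v => len t₀ v
  | .coin _ _ t₁, Sum.inr v => len t₁ v

/-- `t` computes `f` with zero error: on every input every transcript that can occur has the
correct output. -/
def ZeroError (t : Protocol X Y O) (f : X → Y → O) : Prop :=
  ∀ x y v, 0 < prob t v x y → out t v = f x y

section info

variable [Fintype X] [Fintype Y]

/-- `μ` is a probability distribution on `X × Y`. -/
def IsDistribution (μ : X → Y → ℝ) : Prop := (∀ x y, 0 ≤ μ x y) ∧ ∑ x, ∑ y, μ x y = 1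

/-- The probability of the transcript `v` when the inputs are drawn from `μ`. -/
noncomputable def marginal (μ : X → Y → ℝ) (t : Protocol X Y O) (v : Transcript t) : ℝ :=
  ∑ x, ∑ y, μ x y * prob t v x y

/-- External information cost: the mutual information `I(Π; XY)` (in bits) of the transcript and
the pair of inputs, `(X, Y) ∼ μ`; the transcript includes the public coins. -/
noncomputable def extInfo (μ : X → Y → ℝ) (t : Protocol X Y O) : ℝ :=
  ∑ x, ∑ y, ∑ v, μ x y * (prob t v x y * Real.logb 2 (prob t v x y / marginal μ t v))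

/-- Expected number of bits sent when the inputs are drawn from `μ`. -/
noncomputable def expBits (μ : X → Y → ℝ) (t : Protocol X Y O) : ℝ :=
  ∑ x, ∑ y, ∑ v, μ x y * (prob t v x y * (len t v : ℝ))

/-- Zero-error external information complexity. -/
noncomputable def ICext (F : X → Y → O) (μ : X → Y → ℝ) : ℝ :=
  sInf {c | ∃ t : Protocol X Y O, ZeroError t F ∧ extInfo μ t = c}

/-- Zero-error average-case communication complexity. -/
noncomputable def CCavg (F : X → Y → O) (μ : X → Y → ℝ) : ℝ :=
  sInf {c | ∃ t : Protocol X Y O, ZeroError t F ∧ expBits μ t = c}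

end info

/-- The task of computing `F` on every coordinate `i : ι`. -/
def power (ι : Type) (F : X → Y → O) : (ι → X) → (ι → Y) → (ι → O) := fun x y i => F (x i) (y i)

/-- The product distribution. -/
noncomputable def powerDist (ι : Type) [Fintype ι] (μ : X → Y → ℝ) : (ι → X) → (ι → Y) → ℝ :=
  fun x y => ∏ i, μ (x i) (y i)

/-! ### Basic facts -/

theorem prob_nonneg : (t : Protocol X Y O) → (v : Transcript t) → (x : X) → (y : Y) →
    0 ≤ prob t v x y
  | .output _, _, _, _ => zero_le_one
  | .alice p t₀ _, Sum.inl v, x, y => mul_nonneg (by have := (p x).2.2; linarith)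
      (prob_nonneg t₀ v x y)
  | .alice p _ t₁, Sum.inr v, x, y => mul_nonneg (p x).2.1 (prob_nonneg t₁ v x y)
  | .bob p t₀ _, Sum.inl v, x, y => mul_nonneg (by have := (p y).2.2; linarith)
      (prob_nonneg t₀ v x y)
  | .bob p _ t₁, Sum.inr v, x, y => mul_nonneg (p y).2.1 (prob_nonneg t₁ v x y)
  | .coin p t₀ _, Sum.inl v, x, y => mul_nonneg (by have := p.2.2; linarith)
      (prob_nonneg t₀ v x y)
  | .coin p _ t₁, Sum.inr v, x, y => mul_nonneg p.2.1 (prob_nonneg t₁ v x y)

theorem sum_alice (p : X → unitInterval) (t₀ t₁ : Protocol X Y O)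
    (φ : Transcript (.alice p t₀ t₁) → ℝ) :
    ∑ v, φ v = ∑ v : Transcript t₀, φ (Sum.inl v) + ∑ v : Transcript t₁, φ (Sum.inr v) :=
  Fintype.sum_sum_type φ

theorem sum_bob (p : Y → unitInterval) (t₀ t₁ : Protocol X Y O)
    (φ : Transcript (.bob p t₀ t₁) → ℝ) :
    ∑ v, φ v = ∑ v : Transcript t₀, φ (Sum.inl v) + ∑ v : Transcript t₁, φ (Sum.inr v) :=
  Fintype.sum_sum_type φ

theorem sum_coin (p : unitInterval) (t₀ t₁ : Protocol X Y O)
    (φ : Transcript (.coin p t₀ t₁) → ℝ) :
    ∑ v, φ v = ∑ v : Transcript t₀, φ (Sum.inl v) + ∑ v : Transcript t₁, φ (Sum.inr v) :=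
  Fintype.sum_sum_type φ

theorem sum_output (o : O) (φ : Transcript (.output o : Protocol X Y O) → ℝ) :
    ∑ v, φ v = φ () := by
  exact Fintype.sum_unique (ι := Unit) φ

theorem sum_prob (t : Protocol X Y O) (x : X) (y : Y) : ∑ v, prob t v x y = 1 := by
  induction t with
  | output o => rw [sum_output]; rfl
  | alice p t₀ t₁ h₀ h₁ =>
    rw [sum_alice]
    simp only [prob]
    rw [← Finset.mul_sum, ← Finset.mul_sum, h₀, h₁]
    ring
  | bob p t₀ t₁ h₀ h₁ =>
    rw [sum_bob]
    simp only [prob]
    rw [← Finset.mul_sum, ← Finset.mul_sum, h₀, h₁]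
    ring
  | coin p t₀ t₁ h₀ h₁ =>
    rw [sum_coin]
    simp only [prob]
    rw [← Finset.mul_sum, ← Finset.mul_sum, h₀, h₁]
    ring

/-- Alice's factor of the probability of a transcript. -/
noncomputable def aw : (t : Protocol X Y O) → Transcript t → X → ℝ
  | .output _, _, _ => 1
  | .alice p t₀ _, Sum.inl v, x => (1 - (p x : ℝ)) * aw t₀ v x
  | .alice p _ t₁, Sum.inr v, x => (p x : ℝ) * aw t₁ v x
  | .bob _ t₀ _, Sum.inl v, x => aw t₀ v x
  | .bob _ _ t₁, Sum.inr v, x => aw t₁ v x
  | .coin p t₀ _, Sum.inl v, x => (1 - (p : ℝ)) * aw t₀ v x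
  | .coin p _ t₁, Sum.inr v, x => (p : ℝ) * aw t₁ v x

/-- Bob's factor of the probability of a transcript. -/
noncomputable def bw : (t : Protocol X Y O) → Transcript t → Y → ℝ
  | .output _, _, _ => 1
  | .alice _ t₀ _, Sum.inl v, y => bw t₀ v y
  | .alice _ _ t₁, Sum.inr v, y => bw t₁ v y
  | .bob p t₀ _, Sum.inl v, y => (1 - (p y : ℝ)) * bw t₀ v y
  | .bob p _ t₁, Sum.inr v, y => (p y : ℝ) * bw t₁ v y
  | .coin _ t₀ _, Sum.inl v, y => bw t₀ v y
  | .coin _ _ t₁, Sum.inr v, y => bw t₁ v y

theorem aw_nonneg : (t : Protocol X Y O) → (v : Transcript t) → (x : X) → 0 ≤ aw t v x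
  | .output _, _, _ => zero_le_one
  | .alice p t₀ _, Sum.inl v, x => mul_nonneg (by have := (p x).2.2; linarith) (aw_nonneg t₀ v x)
  | .alice p _ t₁, Sum.inr v, x => mul_nonneg (p x).2.1 (aw_nonneg t₁ v x)
  | .bob _ t₀ _, Sum.inl v, x => aw_nonneg t₀ v x
  | .bob _ _ t₁, Sum.inr v, x => aw_nonneg t₁ v x
  | .coin p t₀ _, Sum.inl v, x => mul_nonneg (by have := p.2.2; linarith) (aw_nonneg t₀ v x)
  | .coin p _ t₁, Sum.inr v, x => mul_nonneg p.2.1 (aw_nonneg t₁ v x)

theorem bw_nonneg : (t : Protocol X Y O) → (v : Transcript t) → (y : Y) → 0 ≤ bw t v y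
  | .output _, _, _ => zero_le_one
  | .bob p t₀ _, Sum.inl v, y => mul_nonneg (by have := (p y).2.2; linarith) (bw_nonneg t₀ v y)
  | .bob p _ t₁, Sum.inr v, y => mul_nonneg (p y).2.1 (bw_nonneg t₁ v y)
  | .alice _ t₀ _, Sum.inl v, y => bw_nonneg t₀ v y
  | .alice _ _ t₁, Sum.inr v, y => bw_nonneg t₁ v y
  | .coin _ t₀ _, Sum.inl v, y => bw_nonneg t₀ v y
  | .coin _ _ t₁, Sum.inr v, y => bw_nonneg t₁ v y

theorem prob_eq : (t : Protocol X Y O) → (v : Transcript t) → (x : X) → (y : Y) →
    prob t v x y = aw t v x * bw t v y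
  | .output _, _, _, _ => by simp [prob, aw, bw]
  | .alice p t₀ _, Sum.inl v, x, y => by simp only [prob, aw, bw]; rw [prob_eq t₀ v x y]; ring
  | .alice p _ t₁, Sum.inr v, x, y => by simp only [prob, aw, bw]; rw [prob_eq t₁ v x y]; ring
  | .bob p t₀ _, Sum.inl v, x, y => by simp only [prob, aw, bw]; rw [prob_eq t₀ v x y]; ring
  | .bob p _ t₁, Sum.inr v, x, y => by simp only [prob, aw, bw]; rw [prob_eq t₁ v x y]; ring
  | .coin p t₀ _, Sum.inl v, x, y => by simp only [prob, aw, bw]; rw [prob_eq t₀ v x y]; ring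
  | .coin p _ t₁, Sum.inr v, x, y => by simp only [prob, aw, bw]; rw [prob_eq t₁ v x y]; ring

/-- Expected number of bits on the input `(x, y)`. -/
noncomputable def bits : (t : Protocol X Y O) → X → Y → ℝ
  | .output _, _, _ => 0
  | .alice p t₀ t₁, x, y => 1 + (1 - (p x : ℝ)) * bits t₀ x y + (p x : ℝ) * bits t₁ x y
  | .bob p t₀ t₁, x, y => 1 + (1 - (p y : ℝ)) * bits t₀ x y + (p y : ℝ) * bits t₁ x y
  | .coin p t₀ t₁, x, y => (1 - (p : ℝ)) * bits t₀ x y + (p : ℝ) * bits t₁ x y

theorem sum_aux {ι : Type} [Fintype ι] (c : ℝ) (P L : ι → ℝ) {B : ℝ} (h : ∑ v, P v * L v = B)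
    (h1 : ∑ v, P v = 1) : ∑ v, c * P v * (L v + 1) = c * (B + 1) := by
  have e : ∀ v, c * P v * (L v + 1) = c * (P v * L v) + c * P v := fun v => by ring
  simp only [e]
  rw [Finset.sum_add_distrib, ← Finset.mul_sum, ← Finset.mul_sum, h, h1]
  ring

theorem bits_eq (t : Protocol X Y O) (x : X) (y : Y) :
    ∑ v, prob t v x y * (len t v : ℝ) = bits t x y := by
  induction t with
  | output o => rw [sum_output]; simp [prob, len, bits]
  | alice p t₀ t₁ h₀ h₁ =>
    rw [sum_alice]
    simp only [prob, len, bits]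
    push_cast
    rw [sum_aux (1 - (p x : ℝ)) (fun v => prob t₀ v x y) (fun v => (len t₀ v : ℝ)) h₀
      (sum_prob t₀ x y), sum_aux (p x : ℝ) (fun v => prob t₁ v x y) (fun v => (len t₁ v : ℝ)) h₁
      (sum_prob t₁ x y)]
    ring
  | bob p t₀ t₁ h₀ h₁ =>
    rw [sum_bob]
    simp only [prob, len, bits]
    push_cast
    rw [sum_aux (1 - (p y : ℝ)) (fun v => prob t₀ v x y) (fun v => (len t₀ v : ℝ)) h₀
      (sum_prob t₀ x y), sum_aux (p y : ℝ) (fun v => prob t₁ v x y) (fun v => (len t₁ v : ℝ)) h₁
      (sum_prob t₁ x y)]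
    ring
  | coin p t₀ t₁ h₀ h₁ =>
    rw [sum_coin]
    simp only [prob, len, bits]
    rw [← h₀, ← h₁, Finset.mul_sum, Finset.mul_sum]
    simp only [mul_assoc]

theorem bits_nonneg (t : Protocol X Y O) (x : X) (y : Y) : 0 ≤ bits t x y := by
  rw [← bits_eq]
  exact Finset.sum_nonneg fun v _ => mul_nonneg (prob_nonneg _ _ _ _) (Nat.cast_nonneg _)

theorem expBits_eq [Fintype X] [Fintype Y] (μ : X → Y → ℝ) (t : Protocol X Y O) :
    expBits μ t = ∑ x, ∑ y, μ x y * bits t x y := by
  unfold expBits
  apply Finset.sum_congr rfl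
  intro x _
  apply Finset.sum_congr rfl
  intro y _
  rw [← Finset.mul_sum, bits_eq]

/-- All outputs that can occur on `(x, y)` satisfy `φ`. -/
def All : (t : Protocol X Y O) → X → Y → (O → Prop) → Prop
  | .output o, _, _, φ => φ o
  | .alice p t₀ t₁, x, y, φ => ((p x : ℝ) ≠ 1 → All t₀ x y φ) ∧ ((p x : ℝ) ≠ 0 → All t₁ x y φ)
  | .bob p t₀ t₁, x, y, φ => ((p y : ℝ) ≠ 1 → All t₀ x y φ) ∧ ((p y : ℝ) ≠ 0 → All t₁ x y φ)
  | .coin p t₀ t₁, x, y, φ => ((p : ℝ) ≠ 1 → All t₀ x y φ) ∧ ((p : ℝ) ≠ 0 → All t₁ x y φ)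

theorem all_out : (t : Protocol X Y O) → (x : X) → (y : Y) → (φ : O → Prop) →
    All t x y φ → ∀ v, 0 < prob t v x y → φ (out t v)
  | .output _, _, _, _, h, _, _ => h
  | .alice p t₀ _, x, y, φ, h, Sum.inl v, hv => by
    have hp : (p x : ℝ) ≠ 1 := by
      intro h1
      simp only [prob, h1, sub_self, zero_mul, lt_self_iff_false] at hv
    exact all_out t₀ x y φ (h.1 hp) v (by
      by_contra hcon
      have := le_antisymm (not_lt.1 hcon) (prob_nonneg t₀ v x y)
      simp only [prob, this, mul_zero, lt_self_iff_false] at hv)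
  | .alice p _ t₁, x, y, φ, h, Sum.inr v, hv => by
    have hp : (p x : ℝ) ≠ 0 := by
      intro h1
      simp only [prob, h1, zero_mul, lt_self_iff_false] at hv
    exact all_out t₁ x y φ (h.2 hp) v (by
      by_contra hcon
      have := le_antisymm (not_lt.1 hcon) (prob_nonneg t₁ v x y)
      simp only [prob, this, mul_zero, lt_self_iff_false] at hv)
  | .bob p t₀ _, x, y, φ, h, Sum.inl v, hv => by
    have hp : (p y : ℝ) ≠ 1 := by
      intro h1
      simp only [prob, h1, sub_self, zero_mul, lt_self_iff_false] at hv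
    exact all_out t₀ x y φ (h.1 hp) v (by
      by_contra hcon
      have := le_antisymm (not_lt.1 hcon) (prob_nonneg t₀ v x y)
      simp only [prob, this, mul_zero, lt_self_iff_false] at hv)
  | .bob p _ t₁, x, y, φ, h, Sum.inr v, hv => by
    have hp : (p y : ℝ) ≠ 0 := by
      intro h1
      simp only [prob, h1, zero_mul, lt_self_iff_false] at hv
    exact all_out t₁ x y φ (h.2 hp) v (by
      by_contra hcon
      have := le_antisymm (not_lt.1 hcon) (prob_nonneg t₁ v x y)
      simp only [prob, this, mul_zero, lt_self_iff_false] at hv)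
  | .coin p t₀ _, x, y, φ, h, Sum.inl v, hv => by
    have hp : (p : ℝ) ≠ 1 := by
      intro h1
      simp only [prob, h1, sub_self, zero_mul, lt_self_iff_false] at hv
    exact all_out t₀ x y φ (h.1 hp) v (by
      by_contra hcon
      have := le_antisymm (not_lt.1 hcon) (prob_nonneg t₀ v x y)
      simp only [prob, this, mul_zero, lt_self_iff_false] at hv)
  | .coin p _ t₁, x, y, φ, h, Sum.inr v, hv => by
    have hp : (p : ℝ) ≠ 0 := by
      intro h1
      simp only [prob, h1, zero_mul, lt_self_iff_false] at hv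
    exact all_out t₁ x y φ (h.2 hp) v (by
      by_contra hcon
      have := le_antisymm (not_lt.1 hcon) (prob_nonneg t₁ v x y)
      simp only [prob, this, mul_zero, lt_self_iff_false] at hv)

theorem zeroError_of_all {t : Protocol X Y O} {f : X → Y → O}
    (h : ∀ x y, All t x y (fun o => o = f x y)) : ZeroError t f :=
  fun x y v hv => all_out t x y _ (h x y) v hv

theorem all_of_out : (t : Protocol X Y O) → (x : X) → (y : Y) → (φ : O → Prop) →
    (∀ v, 0 < prob t v x y → φ (out t v)) → All t x y φ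
  | .output _, _, _, _, h => h () zero_lt_one
  | .alice p t₀ t₁, x, y, φ, h => by
    have h0 := (p x).2.1
    have h1 := (p x).2.2
    constructor
    · intro hp
      refine all_of_out t₀ x y φ fun v hv => h (Sum.inl v) ?_
      exact mul_pos (by have := lt_of_le_of_ne h1 hp; linarith) hv
    · intro hp
      refine all_of_out t₁ x y φ fun v hv => h (Sum.inr v) ?_
      exact mul_pos (lt_of_le_of_ne h0 (Ne.symm hp)) hv
  | .bob p t₀ t₁, x, y, φ, h => by
    have h0 := (p y).2.1
    have h1 := (p y).2.2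
    constructor
    · intro hp
      refine all_of_out t₀ x y φ fun v hv => h (Sum.inl v) ?_
      exact mul_pos (by have := lt_of_le_of_ne h1 hp; linarith) hv
    · intro hp
      refine all_of_out t₁ x y φ fun v hv => h (Sum.inr v) ?_
      exact mul_pos (lt_of_le_of_ne h0 (Ne.symm hp)) hv
  | .coin p t₀ t₁, x, y, φ, h => by
    have h0 := p.2.1
    have h1 := p.2.2
    constructor
    · intro hp
      refine all_of_out t₀ x y φ fun v hv => h (Sum.inl v) ?_
      exact mul_pos (by have := lt_of_le_of_ne h1 hp; linarith) hv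
    · intro hp
      refine all_of_out t₁ x y φ fun v hv => h (Sum.inr v) ?_
      exact mul_pos (lt_of_le_of_ne h0 (Ne.symm hp)) hv

theorem zeroError_iff {t : Protocol X Y O} {f : X → Y → O} :
    ZeroError t f ↔ ∀ x y, All t x y (fun o => o = f x y) :=
  ⟨fun h x y => all_of_out t x y _ (h x y), zeroError_of_all⟩

end ExtInfo
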