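import Pool.Agent.H287R3.Ext.Sys

/-! The lower bound on the information revealed by a leaf system. -/

namespace H287R3.Ext.Sys

open Finset Real

variable {V K : Type} [Fintype V] [Fintype K] [DecidableEq K] (S : Sys V K)

/-- Marginal probability of the leaf `v`. -/
noncomputable def M (ε : ℝ) (v : V) : ℝ := ((1 - ε) * S.F v + ε * S.G v) / 6720

theorem M_nonneg {ε : ℝ} (h0 : 0 ≤ ε) (h1 : ε ≤ 1) (v : V) : 0 ≤ S.M ε v := by
  have := S.F0 v
  have := S.G0 v
  unfold M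
  have : 0 ≤ 1 - ε := by linarith
  positivity

theorem M_pos_F {ε : ℝ} (h0 : 0 < ε) (h1 : ε < 1) {v : V} (h : 0 < S.F v) : 0 < S.M ε v := by
  have := S.G0 v
  unfold M
  have : 0 < 1 - ε := by linarith
  positivity

theorem M_pos_G {ε : ℝ} (h0 : 0 < ε) (h1 : ε < 1) {v : V} (h : 0 < S.G v) : 0 < S.M ε v := by
  have := S.F0 v
  unfold M
  have : 0 < 1 - ε := by linarith
  positivity

variable [Nonempty K] [DecidableEq V]

/-- The extra term of a leaf. -/
noncomputable def ext (v : V) : ℝ := if v ∈ S.Vs then S.d1 v else 2 / 5 * S.F v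

theorem leafN (hK : Fintype.card K = 16) {ε : ℝ} (h0 : 0 < ε) (h1 : ε < 1) (v : V) :
    S.F v * log 16 + S.F v - 6720 * S.M ε v + S.ext v
      ≤ ∑ σ ∈ St K, S.f v σ * log (S.f v σ / S.M ε v) := by
  by_cases hv : v ∈ S.Vs
  · have hst := S.cv_spec (S.mem_Vs.1 hv)
    have := leaf_star (St K) (Stc (S.cv v)) (filter_subset _ _) (S.f v) (fun σ _ => S.f0 v σ)
      (fun σ hσ hn => (hst σ hσ (fun h => hn (mem_filter.2 ⟨hσ, h⟩))).1) (n := 420) (m := S.M ε v)
      (by norm_num) (by rw [card_Stc hK]; norm_num) (S.M_nonneg h0.le h1.le v)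
      (fun h => S.M_pos_F h0 h1 h)
    have e : ∑ i ∈ Stc (S.cv v), (√(S.f v i) - √((∑ i ∈ St K, S.f v i) / 420)) ^ 2 = S.d1 v := by
      rw [sum_Stc]; rfl
    rw [e] at this
    unfold ext
    rw [if_pos hv]
    have e2 : ∑ i ∈ St K, S.f v i = S.F v := rfl
    rw [e2] at this
    linarith
  · rcases S.star_or hK v with h | ⟨T, hT1, hT2, hT3⟩
    · exact absurd (S.mem_Vs.2 h) hv
    · have := leaf_few (St K) T hT1 (S.f v) (fun σ _ => S.f0 v σ)
        (fun σ hσ hn => (hT3 σ hσ hn).1) (m := S.M ε v) hT2 (S.M_nonneg h0.le h1.le v)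
        (fun h => S.M_pos_F h0 h1 h)
      unfold ext
      rw [if_neg hv]
      exact this

theorem leafE (hK : Fintype.card K = 16) {ε : ℝ} (h0 : 0 < ε) (h1 : ε < 1) (v : V) (γ : ℝ) :
    S.G v * log 16 + γ * S.G v + S.G v - 6720 * S.M ε v * exp γ
      ≤ ∑ σ ∈ St K, S.g v σ * log (S.g v σ / S.M ε v) := by
  obtain ⟨T, hT1, hT2, hT3⟩ : ∃ T : Finset (Bool × K × K × K), T ⊆ St K ∧ T.card ≤ 420 ∧
      ∀ σ ∈ St K, σ ∉ T → S.g v σ = 0 := by
    by_cases hv : v ∈ S.Vs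
    · have hst := S.cv_spec (S.mem_Vs.1 hv)
      exact ⟨Stc (S.cv v), filter_subset _ _, (card_Stc hK _).le,
        fun σ hσ hn => (hst σ hσ (fun h => hn (mem_filter.2 ⟨hσ, h⟩))).2⟩
    · rcases S.star_or hK v with h | ⟨T, hT1, hT2, hT3⟩
      · exact absurd (S.mem_Vs.2 h) hv
      · exact ⟨T, hT1, by omega, fun σ hσ hn => (hT3 σ hσ hn).2⟩
  have := leaf_gen (St K) T hT1 (S.g v) (fun σ _ => S.g0 v σ) hT3 (n := 420) (m := S.M ε v)
    (by norm_num) (by exact_mod_cast hT2) (S.M_nonneg h0.le h1.le v)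
    (fun h => S.M_pos_G h0 h1 h) γ
  have e2 : ∑ i ∈ St K, S.g v i = S.G v := rfl
  rw [e2] at this
  linarith

theorem sum_ext : ∑ v, S.ext v = ∑ v ∈ S.Vs, S.d1 v + 2 / 5 * S.Fns := by
  unfold ext Fns
  rw [mul_sum, ← sum_sdiff (subset_univ S.Vs), add_comm]
  congr 1
  · apply sum_congr rfl
    intro v hv
    rw [if_pos hv]
  · apply sum_congr rfl
    intro v hv
    rw [if_neg (mem_sdiff.1 hv).2]

theorem sum_M (hK : Fintype.card K = 16) (ε : ℝ) : ∑ v, 6720 * S.M ε v = 6720 := by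
  have h : ∀ v, 6720 * S.M ε v = (1 - ε) * S.F v + ε * S.G v := fun v => by unfold M; ring
  simp only [h]
  rw [sum_add_distrib, ← mul_sum, ← mul_sum, S.sum_F hK, S.sum_G hK]
  ring

/-- **Lower bound.** -/
theorem lower (hK : Fintype.card K = 16) {ε γ : ℝ} (h0 : 0 < ε) (h1 : ε ≤ 1 / 2) (hγ : 0 ≤ γ)
    (he : exp γ * (6300000 * ε) = 1) :
    6720 * (log 16 + ε * (γ / 3 - 1)) ≤
      ∑ v, ∑ σ ∈ St K, ((1 - ε) * (S.f v σ * log (S.f v σ / S.M ε v))
        + ε * (S.g v σ * log (S.g v σ / S.M ε v))) := by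
  classical
  have h1' : ε < 1 := by linarith
  have hpos : 0 < 1 - ε := by linarith
  let gm : V → ℝ := fun v => if S.Good v then 0 else γ
  have hN : ∑ v, (S.F v * log 16 + S.F v - 6720 * S.M ε v + S.ext v) ≤
      ∑ v, ∑ σ ∈ St K, S.f v σ * log (S.f v σ / S.M ε v) :=
    sum_le_sum fun v _ => S.leafN hK h0 h1' v
  have hE : ∑ v, (S.G v * log 16 + gm v * S.G v + S.G v - 6720 * S.M ε v * exp (gm v)) ≤
      ∑ v, ∑ σ ∈ St K, S.g v σ * log (S.g v σ / S.M ε v) :=
    sum_le_sum fun v _ => S.leafE hK h0 h1' v (gm v)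
  rw [sum_add_distrib, sum_sub_distrib, sum_add_distrib, ← sum_mul, S.sum_F hK, S.sum_M hK,
    S.sum_ext] at hN
  rw [sum_sub_distrib, sum_add_distrib, sum_add_distrib, ← sum_mul, S.sum_G hK] at hE
  -- the good and the bad part
  have e1 : ∑ v, gm v * S.G v = γ * ∑ v ∈ univ.filter (fun v => ¬ S.Good v), S.G v := by
    rw [mul_sum, sum_filter]
    apply sum_congr rfl
    intro v _
    simp only [gm]
    by_cases hg : S.Good v
    · simp [hg]
    · simp [hg]
  have e2 : ∑ v, 6720 * S.M ε v * exp (gm v) ≤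
      6720 + exp γ * ∑ v ∈ univ.filter (fun v => ¬ S.Good v), 6720 * S.M ε v := by
    have hsm := S.sum_M hK ε
    refine le_trans ?_ (le_of_eq (congrArg (fun z => z + exp γ *
      ∑ v ∈ univ.filter (fun v => ¬ S.Good v), 6720 * S.M ε v) hsm))
    rw [mul_sum, sum_filter, ← sum_add_distrib]
    apply sum_le_sum
    intro v _
    simp only [gm]
    have hM := S.M_nonneg h0.le h1'.le v
    by_cases hg : S.Good v
    · simp only [hg, if_true, not_true_eq_false, if_false, exp_zero]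
      linarith
    · simp only [hg, if_false, not_false_eq_true, if_true]
      nlinarith
  have e3 : ∑ v ∈ univ.filter (fun v => ¬ S.Good v), 6720 * S.M ε v =
      (1 - ε) * (∑ v ∈ univ.filter (fun v => ¬ S.Good v), S.F v)
      + ε * ∑ v ∈ univ.filter (fun v => ¬ S.Good v), S.G v := by
    rw [mul_sum, mul_sum, ← sum_add_distrib]
    apply sum_congr rfl
    intro v _
    unfold M
    ring
  have e4 : ∑ v ∈ univ.filter (fun v => S.Good v), S.G v
      + ∑ v ∈ univ.filter (fun v => ¬ S.Good v), S.G v = 6720 := by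
    rw [← S.sum_G hK]
    exact sum_filter_add_sum_filter_not _ _ _
  have e5 := S.sum_good hK
  have e6 := S.sum_bad hK
  have e7 : ∑ v, ∑ σ ∈ St K, ((1 - ε) * (S.f v σ * log (S.f v σ / S.M ε v))
        + ε * (S.g v σ * log (S.g v σ / S.M ε v)))
      = (1 - ε) * (∑ v, ∑ σ ∈ St K, S.f v σ * log (S.f v σ / S.M ε v))
        + ε * ∑ v, ∑ σ ∈ St K, S.g v σ * log (S.g v σ / S.M ε v) := by
    simp only [mul_sum, ← sum_add_distrib]
  have hFb : 0 ≤ ∑ v ∈ univ.filter (fun v => ¬ S.Good v), S.F v := sum_nonneg fun v _ => S.F0 v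
  have hGg : 0 ≤ ∑ v ∈ univ.filter (fun v => S.Good v), S.G v := sum_nonneg fun v _ => S.G0 v
  have hGb : 0 ≤ ∑ v ∈ univ.filter (fun v => ¬ S.Good v), S.G v := sum_nonneg fun v _ => S.G0 v
  rw [e7]
  rw [e1] at hE
  rw [e3] at e2
  set Gb := ∑ v ∈ univ.filter (fun v => ¬ S.Good v), S.G v
  set Gg := ∑ v ∈ univ.filter (fun v => S.Good v), S.G v
  set Fb := ∑ v ∈ univ.filter (fun v => ¬ S.Good v), S.F v
  set Ex := ∑ v ∈ S.Vs, S.d1 v + 2 / 5 * S.Fns with hEx
  set IN := ∑ v, ∑ σ ∈ St K, S.f v σ * log (S.f v σ / S.M ε v)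
  set IE := ∑ v, ∑ σ ∈ St K, S.g v σ * log (S.g v σ / S.M ε v)
  have hExp : 0 < exp γ := exp_pos γ
  have hEx0 : 0 ≤ Ex := by nlinarith
  have hIN : 6720 * log 16 + Ex ≤ IN := by linarith
  have hIE : 6720 * log 16 + γ * 2240 - exp γ * (Fb + 6720 * ε) ≤ IE := by
    have a1 : γ * 2240 ≤ γ * Gb := mul_le_mul_of_nonneg_left (by linarith) hγ
    have a2 : exp γ * ((1 - ε) * Fb + ε * Gb) ≤ exp γ * (Fb + 6720 * ε) := by
      apply mul_le_mul_of_nonneg_left _ hExp.le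
      nlinarith
    linarith
  have b1 : ε * exp γ = 1 / 6300000 := by
    have : (ε * exp γ) * 6300000 = 1 := by linarith
    linarith
  have b2 : ε * (exp γ * Fb) ≤ (1 / 2) * Ex := by
    calc ε * (exp γ * Fb) = (ε * exp γ) * Fb := by ring
      _ = 1 / 6300000 * Fb := by rw [b1]
      _ ≤ 1 / 6300000 * (3150000 * Ex) := by
          apply mul_le_mul_of_nonneg_left e6; norm_num
      _ = (1 / 2) * Ex := by ring
  have b3 : ε * (exp γ * (6720 * ε)) = ε * (6720 / 6300000) := by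
    calc ε * (exp γ * (6720 * ε)) = (ε * exp γ) * (6720 * ε) := by ring
      _ = _ := by rw [b1]; ring
  have c1 := mul_le_mul_of_nonneg_left hIN hpos.le
  have c2 := mul_le_mul_of_nonneg_left hIE h0.le
  nlinarith

end H287R3.Ext.Sys
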