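import Pool.Agent.H287R3.Ext.Defs
import Pool.Agent.H287R3.Ext.Low

/-! The problem: function, distribution, and the single-copy lower bound. -/

namespace ExtInfo

open Finset H287R3.Ext

/-- Access functions to the inputs.  Alice: a bit `hx` and a set `mem`.  Bob: two candidates `t`,
an erasure flag `er` and a bit `z`. -/
structure Enc (K X Y : Type) where
  hx : X → Bool
  mem : X → K → Bool
  t : Y → Bool → K
  er : Y → Bool
  z : Y → Bool
  mkX : Bool → K → K → X
  mkY : K → K → Bool → Bool → Y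
  hx_mk : ∀ h c s, hx (mkX h c s) = h
  mem_mk : ∀ h c s a, mem (mkX h c s) a = true ↔ a = c ∨ a = s
  mk_comm : ∀ h c s, mkX h c s = mkX h s c
  t0_mk : ∀ a b r z, t (mkY a b r z) false = a
  t1_mk : ∀ a b r z, t (mkY a b r z) true = b
  er_mk : ∀ a b r z', er (mkY a b r z') = r
  z_mk : ∀ a b r z', z (mkY a b r z') = z'

namespace Enc

variable {K X Y : Type} (E : Enc K X Y)

/-- Bob's input when he knows the bit `h`: the candidate at place `h` is `c`. -/
def yN (h : Bool) (c e : K) : Y := if h then E.mkY e c false true else E.mkY c e false false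

/-- Bob's input when he does not know the bit `h`. -/
def yE (h : Bool) (c e : K) : Y := if h then E.mkY e c true false else E.mkY c e true false

/-- The function: does Alice's set contain one of Bob's candidates? -/
def F (x : X) (y : Y) : Bool := E.mem x (E.t y false) || E.mem x (E.t y true)

theorem yE_symm (c e : K) : E.yE false c e = E.yE true e c := rfl

variable [DecidableEq K]

theorem F_yN (h : Bool) (c s : K) (h' : Bool) (c' e' : K) :
    E.F (E.mkX h c s) (E.yN h' c' e') = true ↔ (({c, s} : Finset K) ∩ {c', e'}).Nonempty := by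
  have key : ∀ a b : K, (E.mem (E.mkX h c s) a || E.mem (E.mkX h c s) b) = true ↔
      ((a = c ∨ a = s) ∨ (b = c ∨ b = s)) := by
    intro a b
    rw [Bool.or_eq_true, E.mem_mk, E.mem_mk]
  have key2 : (({c, s} : Finset K) ∩ {c', e'}).Nonempty ↔
      ((c' = c ∨ c' = s) ∨ (e' = c ∨ e' = s)) := by
    constructor
    · rintro ⟨a, ha⟩
      rw [mem_inter, mem_insert, mem_singleton, mem_insert, mem_singleton] at ha
      rcases ha with ⟨h1, rfl | rfl⟩
      · exact Or.inl h1
      · exact Or.inr h1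
    · rintro (h1 | h1)
      · exact ⟨c', by rw [mem_inter, mem_insert, mem_singleton]; exact ⟨h1, mem_insert_self _ _⟩⟩
      · refine ⟨e', ?_⟩
        rw [mem_inter, mem_insert, mem_singleton]
        exact ⟨h1, mem_insert_of_mem (mem_singleton_self _)⟩
  rw [key2]
  unfold F yN
  cases h'
  · simp only [Bool.false_eq_true, if_false, E.t0_mk, E.t1_mk, key]
  · simp only [if_true, E.t0_mk, E.t1_mk, key]
    exact or_comm

theorem F_yE (h : Bool) (c s : K) (h' : Bool) (c' e' : K) :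
    E.F (E.mkX h c s) (E.yE h' c' e') = true ↔ (({c, s} : Finset K) ∩ {c', e'}).Nonempty := by
  rw [← E.F_yN h c s h' c' e']
  unfold F yN yE
  cases h'
  · simp only [Bool.false_eq_true, if_false, E.t0_mk, E.t1_mk]
  · simp only [if_true, E.t0_mk, E.t1_mk]

variable [Fintype K]

/-- The leaf system of a zero-error protocol. -/
noncomputable def sys (t : Protocol X Y Bool) (ht : ZeroError t E.F) : Sys (Transcript t) K where
  A v h c s := aw t v (E.mkX h c s)
  BN v h c e := bw t v (E.yN h c e)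
  BE v h c e := bw t v (E.yE h c e)
  A0 _ _ _ _ := aw_nonneg _ _ _
  BN0 _ _ _ _ := bw_nonneg _ _ _
  BE0 _ _ _ _ := bw_nonneg _ _ _
  Asym v h c s := by rw [E.mk_comm]
  BEsym v c e := by rw [E.yE_symm]
  hN h c s h' c' e' := by
    rw [← sum_prob t (E.mkX h c s) (E.yN h' c' e')]
    exact sum_congr rfl fun v _ => (prob_eq t v _ _).symm
  hE h c s h' c' e' := by
    rw [← sum_prob t (E.mkX h c s) (E.yE h' c' e')]
    exact sum_congr rfl fun v _ => (prob_eq t v _ _).symm
  mono v := by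
    cases ho : out t v with
    | true =>
      left
      rintro h c s h' c' e' h1 (h2 | h2)
      · rw [← E.F_yN h c s h' c' e', ← ho]
        exact (ht _ _ v (by rw [prob_eq]; exact mul_pos h1 h2)).symm
      · rw [← E.F_yE h c s h' c' e', ← ho]
        exact (ht _ _ v (by rw [prob_eq]; exact mul_pos h1 h2)).symm
    | false =>
      right
      rintro h c s h' c' e' h1 (h2 | h2)
      · rw [← E.F_yN h c s h' c' e']
        have := ht _ _ v (show 0 < prob t v (E.mkX h c s) (E.yN h' c' e') by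
          rw [prob_eq]; exact mul_pos h1 h2)
        rw [ho] at this
        rw [← this]
        simp
      · rw [← E.F_yE h c s h' c' e']
        have := ht _ _ v (show 0 < prob t v (E.mkX h c s) (E.yE h' c' e') by
          rw [prob_eq]; exact mul_pos h1 h2)
        rw [ho] at this
        rw [← this]
        simp

variable [Fintype X] [Fintype Y]

open Classical in
/-- The distribution: a uniformly random state `(h, c, s, e)`; Alice gets `(h, {c, s})`, Bob gets
the candidates `c` (at place `h`) and `e`, and he also gets `h` unless it is erased, which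
happens with probability `ε`. -/
noncomputable def μ (ε : ℝ) (x : X) (y : Y) : ℝ :=
  ∑ σ ∈ St K, (1 / 6720) *
    ((1 - ε) * (if x = E.mkX σ.1 σ.2.1 σ.2.2.1 ∧ y = E.yN σ.1 σ.2.1 σ.2.2.2 then 1 else 0)
      + ε * (if x = E.mkX σ.1 σ.2.1 σ.2.2.1 ∧ y = E.yE σ.1 σ.2.1 σ.2.2.2 then 1 else 0))

theorem sum_μ (ε : ℝ) (G : X → Y → ℝ) :
    ∑ x, ∑ y, E.μ ε x y * G x y = ∑ σ ∈ St K, (1 / 6720) *
      ((1 - ε) * G (E.mkX σ.1 σ.2.1 σ.2.2.1) (E.yN σ.1 σ.2.1 σ.2.2.2)
      + ε * G (E.mkX σ.1 σ.2.1 σ.2.2.1) (E.yE σ.1 σ.2.1 σ.2.2.2)) := by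
  classical
  have one : ∀ (x0 : X) (y0 : Y), ∑ x, ∑ y, (if x = x0 ∧ y = y0 then (1 : ℝ) else 0) * G x y
      = G x0 y0 := by
    intro x0 y0
    rw [sum_eq_single x0, sum_eq_single y0]
    · simp
    · intro y _ hy
      simp [hy]
    · intro h; exact absurd (mem_univ _) h
    · intro x _ hx
      apply sum_eq_zero
      intro y _
      simp [hx]
    · intro h; exact absurd (mem_univ _) h
  unfold μ
  simp only [sum_mul]
  have : ∀ x : X, ∑ y : Y, ∑ σ ∈ St K, (1 / 6720 : ℝ) *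
      ((1 - ε) * (if x = E.mkX σ.1 σ.2.1 σ.2.2.1 ∧ y = E.yN σ.1 σ.2.1 σ.2.2.2 then 1 else 0)
      + ε * (if x = E.mkX σ.1 σ.2.1 σ.2.2.1 ∧ y = E.yE σ.1 σ.2.1 σ.2.2.2 then 1 else 0)) * G x y
      = ∑ σ ∈ St K, ∑ y : Y, (1 / 6720 : ℝ) *
      ((1 - ε) * (if x = E.mkX σ.1 σ.2.1 σ.2.2.1 ∧ y = E.yN σ.1 σ.2.1 σ.2.2.2 then 1 else 0)
      + ε * (if x = E.mkX σ.1 σ.2.1 σ.2.2.1 ∧ y = E.yE σ.1 σ.2.1 σ.2.2.2 then 1 else 0)) * G x y :=
    fun x => sum_comm
  rw [sum_congr rfl fun x _ => this x, sum_comm]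
  apply sum_congr rfl
  intro σ _
  rw [← one (E.mkX σ.1 σ.2.1 σ.2.2.1) (E.yN σ.1 σ.2.1 σ.2.2.2),
    ← one (E.mkX σ.1 σ.2.1 σ.2.2.1) (E.yE σ.1 σ.2.1 σ.2.2.2)]
  rw [mul_sum, mul_sum, ← sum_add_distrib, mul_sum]
  apply sum_congr rfl
  intro x _
  rw [mul_sum, mul_sum, ← sum_add_distrib, mul_sum]
  apply sum_congr rfl
  intro y _
  ring

theorem μ_nonneg {ε : ℝ} (h0 : 0 ≤ ε) (h1 : ε ≤ 1) (x : X) (y : Y) : 0 ≤ E.μ ε x y := by
  unfold μ
  apply sum_nonneg
  intro σ _
  have : 0 ≤ 1 - ε := by linarith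
  split_ifs <;> positivity

theorem μ_dist (hK : Fintype.card K = 16) {ε : ℝ} (h0 : 0 ≤ ε) (h1 : ε ≤ 1) :
    IsDistribution (E.μ ε) := by
  refine ⟨E.μ_nonneg h0 h1, ?_⟩
  have := E.sum_μ ε (fun _ _ => 1)
  simp only [mul_one] at this
  rw [this]
  have e : (1 - ε + ε : ℝ) = 1 := by ring
  simp only [e, mul_one, sum_const, card_St hK]
  norm_num

theorem extInfo_lower [Nonempty K] (hK : Fintype.card K = 16) {ε γ : ℝ} (h0 : 0 < ε)
    (h1 : ε ≤ 1 / 2) (hγ : 0 ≤ γ) (he : Real.exp γ * (6300000 * ε) = 1)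
    (t : Protocol X Y Bool) (ht : ZeroError t E.F) :
    4 + ε * (γ / 3 - 1) / Real.log 2 ≤ extInfo (E.μ ε) t := by
  classical
  have hlow := (E.sys t ht).lower hK h0 h1 hγ he
  have hM : ∀ v, marginal (E.μ ε) t v = (E.sys t ht).M ε v := by
    intro v
    unfold marginal
    rw [E.sum_μ ε (fun x y => prob t v x y)]
    unfold Sys.M Sys.F Sys.G
    have e : ((1 - ε) * ∑ σ ∈ St K, (E.sys t ht).f v σ + ε * ∑ σ ∈ St K, (E.sys t ht).g v σ)
        / 6720 = ∑ σ ∈ St K, (1 / 6720) *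
          ((1 - ε) * (E.sys t ht).f v σ + ε * (E.sys t ht).g v σ) := by
      rw [mul_sum, mul_sum, ← sum_add_distrib, sum_div]
      apply sum_congr rfl
      intro σ _
      ring
    rw [e]
    apply sum_congr rfl
    intro σ _
    rw [prob_eq, prob_eq]
    rfl
  have hlog2 : 0 < Real.log 2 := Real.log_pos (by norm_num)
  have hI : extInfo (E.μ ε) t = (1 / 6720) * (∑ v, ∑ σ ∈ St K,
      ((1 - ε) * ((E.sys t ht).f v σ * Real.log ((E.sys t ht).f v σ / (E.sys t ht).M ε v))
      + ε * ((E.sys t ht).g v σ * Real.log ((E.sys t ht).g v σ / (E.sys t ht).M ε v))))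
      / Real.log 2 := by
    unfold extInfo
    have e1 : ∀ x y, ∑ v, E.μ ε x y * (prob t v x y * Real.logb 2 (prob t v x y /
        marginal (E.μ ε) t v)) = E.μ ε x y * ∑ v, (prob t v x y * Real.logb 2 (prob t v x y /
        marginal (E.μ ε) t v)) := fun x y => by rw [mul_sum]
    simp only [e1]
    rw [E.sum_μ ε (fun x y => ∑ v, (prob t v x y * Real.logb 2 (prob t v x y /
        marginal (E.μ ε) t v))), sum_comm, mul_sum, sum_div]
    apply sum_congr rfl
    intro σ _
    rw [mul_div_assoc]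
    congr 1
    rw [mul_sum, mul_sum, ← sum_add_distrib, sum_div]
    apply sum_congr rfl
    intro v _
    rw [hM, prob_eq, prob_eq]
    unfold Real.logb
    have a1 : aw t v (E.mkX σ.1 σ.2.1 σ.2.2.1) * bw t v (E.yN σ.1 σ.2.1 σ.2.2.2) =
      (E.sys t ht).f v σ := rfl
    have a2 : aw t v (E.mkX σ.1 σ.2.1 σ.2.2.1) * bw t v (E.yE σ.1 σ.2.1 σ.2.2.2) =
      (E.sys t ht).g v σ := rfl
    rw [a1, a2]
    ring
  have h16 : Real.log 16 = 4 * Real.log 2 := by
    rw [show (16 : ℝ) = 2 ^ 4 by norm_num, Real.log_pow]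
    norm_num
  rw [hI]
  rw [h16] at hlow
  set Z := ∑ v, ∑ σ ∈ St K,
      ((1 - ε) * ((E.sys t ht).f v σ * Real.log ((E.sys t ht).f v σ / (E.sys t ht).M ε v))
      + ε * ((E.sys t ht).g v σ * Real.log ((E.sys t ht).g v σ / (E.sys t ht).M ε v)))
  rw [le_div_iff₀ hlog2]
  have : (4 + ε * (γ / 3 - 1) / Real.log 2) * Real.log 2
      = 4 * Real.log 2 + ε * (γ / 3 - 1) := by
    field_simp
  rw [this]
  linarith

end Enc

end ExtInfo
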