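import Mathlib

/-! Per-leaf logarithmic inequalities. -/

namespace H287R3.Ext

open Finset Real

theorem mul_log_div_ge {q m : ℝ} (γ : ℝ) (hq : 0 < q) (hm : 0 < m) :
    γ * q + q - m * exp γ ≤ q * log (q / m) := by
  have he : 0 < exp γ := exp_pos γ
  have h1 : log (q / m) = γ + log (q / (m * exp γ)) := by
    rw [log_div hq.ne' hm.ne', log_div hq.ne' (by positivity), log_mul hm.ne' he.ne', log_exp]
    ring
  have h2 := one_sub_inv_le_log_of_pos (show 0 < q / (m * exp γ) by positivity)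
  rw [h1]
  have h3 : q * (1 - (q / (m * exp γ))⁻¹) = q - m * exp γ := by
    field_simp
  nlinarith [mul_le_mul_of_nonneg_left h2 hq.le]

theorem mul_log_ge_sub {f u : ℝ} (hf : 0 ≤ f) (hu : 0 < u) : f - u ≤ f * log (f / u) := by
  rcases hf.eq_or_lt with rfl | hf
  · simp [hu.le]
  · have := mul_log_div_ge 0 hf hu
    simpa using this

theorem mul_log_ge_sqrt {f u : ℝ} (hf : 0 ≤ f) (hu : 0 < u) :
    (√f - √u) ^ 2 + (f - u) ≤ f * log (f / u) := by
  have hsf := Real.sq_sqrt hf
  have hsu := Real.sq_sqrt hu.le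
  rcases hf.eq_or_lt with rfl | hf
  · simp [hsu]
  · have h1 : 0 < √f := Real.sqrt_pos.2 hf
    have h2 : 0 < √u := Real.sqrt_pos.2 hu
    have h3 : log (f / u) = 2 * log (√f / √u) := by
      rw [← hsf, ← hsu, ← div_pow, log_pow, hsf, hsu]
      norm_num
    have h4 := one_sub_inv_le_log_of_pos (show 0 < √f / √u by positivity)
    have h5 : f * (1 - (√f / √u)⁻¹) = f - √f * √u := by
      have : f = √f * √f := by nlinarith
      rw [inv_div, mul_sub, mul_one]
      congr 1
      rw [mul_div_assoc']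
      rw [div_eq_iff h1.ne']
      nlinarith
    rw [h3]
    nlinarith [mul_le_mul_of_nonneg_left h4 hf.le]

variable {ι : Type} [DecidableEq ι]

/-- Common part: reference value `u = F / n`. -/
theorem leaf_split (s : Finset ι) (f : ι → ℝ) (hf0 : ∀ i ∈ s, 0 ≤ f i) {n m : ℝ} (hn : 0 < n)
    (hF : 0 < ∑ i ∈ s, f i) (hm : 0 < m) (γ : ℝ) :
    (∑ i ∈ s, f i) * log 16 + γ * (∑ i ∈ s, f i) + (∑ i ∈ s, f i) - 16 * n * m * exp γ
      + ∑ i ∈ s, f i * log (f i / ((∑ i ∈ s, f i) / n)) ≤ ∑ i ∈ s, f i * log (f i / m) := by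
  set F := ∑ i ∈ s, f i with hFdef
  have hu : 0 < F / n := by positivity
  have h1 : ∀ i ∈ s, f i * log (f i / m) = f i * log (f i / (F / n)) + f i * log ((F / n) / m) := by
    intro i hi
    rcases (hf0 i hi).eq_or_lt with h | h
    · rw [← h]; simp
    · rw [← mul_add, ← log_mul (by positivity) (by positivity)]
      congr 2
      field_simp
  rw [sum_congr rfl h1, sum_add_distrib, ← sum_mul, ← hFdef]
  have hq : 0 < F / (16 * n) := by positivity
  have h2 := mul_log_div_ge γ hq hm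
  have h3 : log (F / n / m) = log 16 + log (F / (16 * n) / m) := by
    rw [← log_mul (by norm_num) (by positivity)]
    congr 1
    field_simp
  rw [h3]
  have h4 : F = 16 * n * (F / (16 * n)) := by field_simp
  have h5 := mul_le_mul_of_nonneg_left h2 (show 0 ≤ 16 * n by positivity)
  have h6 : 16 * n * (γ * (F / (16 * n)) + F / (16 * n) - m * exp γ)
      = γ * F + F - 16 * n * m * exp γ := by
    field_simp
  have h7 : 16 * n * (F / (16 * n) * log (F / (16 * n) / m)) = F * log (F / (16 * n) / m) := by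
    field_simp
  rw [h6, h7] at h5
  nlinarith

theorem leaf_gen (s T : Finset ι) (hT : T ⊆ s) (f : ι → ℝ) (hf0 : ∀ i ∈ s, 0 ≤ f i)
    (hfT : ∀ i ∈ s, i ∉ T → f i = 0) {n m : ℝ} (hn : 0 < n) (hcard : (T.card : ℝ) ≤ n)
    (hm0 : 0 ≤ m) (hm : 0 < ∑ i ∈ s, f i → 0 < m) (γ : ℝ) :
    (∑ i ∈ s, f i) * log 16 + γ * (∑ i ∈ s, f i) + (∑ i ∈ s, f i) - 16 * n * m * exp γ
      ≤ ∑ i ∈ s, f i * log (f i / m) := by
  rcases (sum_nonneg hf0).eq_or_lt with h | h
  · have h0 := (sum_eq_zero_iff_of_nonneg hf0).1 h.symm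
    rw [← h, sum_eq_zero (f := fun i => f i * log (f i / m)) (fun i hi => by rw [h0 i hi]; simp)]
    have : 0 ≤ 16 * n * m * exp γ := by positivity
    linarith
  · have h1 := leaf_split s f hf0 hn h (hm h) γ
    set F := ∑ i ∈ s, f i with hFdef
    have hu : 0 < F / n := by positivity
    have h2 : 0 ≤ ∑ i ∈ s, f i * log (f i / (F / n)) := by
      have h3 : ∑ i ∈ s, f i * log (f i / (F / n)) = ∑ i ∈ T, f i * log (f i / (F / n)) := by
        symm
        apply sum_subset hT
        intro i hi hiT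
        rw [hfT i hi hiT]; simp
      rw [h3]
      have h4 : ∑ i ∈ T, (f i - F / n) ≤ ∑ i ∈ T, f i * log (f i / (F / n)) :=
        sum_le_sum fun i hi => mul_log_ge_sub (hf0 i (hT hi)) hu
      have h5 : ∑ i ∈ T, f i = F := by
        rw [hFdef]
        exact sum_subset hT (fun i hi hiT => hfT i hi hiT)
      rw [sum_sub_distrib, h5, sum_const, nsmul_eq_mul] at h4
      have h6 : (T.card : ℝ) * (F / n) ≤ F := by
        calc (T.card : ℝ) * (F / n) ≤ n * (F / n) := by
              exact mul_le_mul_of_nonneg_right hcard hu.le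
          _ = F := by field_simp
      linarith
    linarith

theorem leaf_star (s T : Finset ι) (hT : T ⊆ s) (f : ι → ℝ) (hf0 : ∀ i ∈ s, 0 ≤ f i)
    (hfT : ∀ i ∈ s, i ∉ T → f i = 0) {n m : ℝ} (hn : 0 < n) (hcard : (T.card : ℝ) = n)
    (hm0 : 0 ≤ m) (hm : 0 < ∑ i ∈ s, f i → 0 < m) :
    (∑ i ∈ s, f i) * log 16 + (∑ i ∈ s, f i) - 16 * n * m
      + ∑ i ∈ T, (√(f i) - √((∑ i ∈ s, f i) / n)) ^ 2
      ≤ ∑ i ∈ s, f i * log (f i / m) := by
  rcases (sum_nonneg hf0).eq_or_lt with h | h
  · have h0 := (sum_eq_zero_iff_of_nonneg hf0).1 h.symm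
    rw [← h, sum_eq_zero (f := fun i => f i * log (f i / m)) (fun i hi => by rw [h0 i hi]; simp),
      sum_eq_zero (f := fun i => (√(f i) - √(0 / n)) ^ 2)
        (fun i hi => by rw [h0 i (hT hi)]; simp)]
    have : 0 ≤ 16 * n * m := by positivity
    linarith
  · have h1 := leaf_split s f hf0 hn h (hm h) 0
    rw [exp_zero] at h1
    set F := ∑ i ∈ s, f i with hFdef
    have hu : 0 < F / n := by positivity
    have h2 : ∑ i ∈ T, (√(f i) - √(F / n)) ^ 2 ≤ ∑ i ∈ s, f i * log (f i / (F / n)) := by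
      have h3 : ∑ i ∈ s, f i * log (f i / (F / n)) = ∑ i ∈ T, f i * log (f i / (F / n)) := by
        symm
        apply sum_subset hT
        intro i hi hiT
        rw [hfT i hi hiT]; simp
      rw [h3]
      have h4 : ∑ i ∈ T, ((√(f i) - √(F / n)) ^ 2 + (f i - F / n))
          ≤ ∑ i ∈ T, f i * log (f i / (F / n)) :=
        sum_le_sum fun i hi => mul_log_ge_sqrt (hf0 i (hT hi)) hu
      have h5 : ∑ i ∈ T, f i = F := by
        rw [hFdef]
        exact sum_subset hT (fun i hi hiT => hfT i hi hiT)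
      rw [sum_add_distrib, sum_sub_distrib, h5, sum_const, nsmul_eq_mul, hcard] at h4
      have h6 : n * (F / n) = F := by field_simp
      linarith
    linarith

theorem log_ratio : (2 / 5 : ℝ) ≤ log (420 / 256) := by
  have h : exp (2 / 5 : ℝ) ≤ 420 / 256 := by
    have h1 : exp (2 / 5 : ℝ) = (exp 1) ^ (2 / 5 : ℝ) := by
      rw [← exp_mul]; norm_num
    have h2 : (exp (2 / 5 : ℝ)) ^ 5 = (exp 1) ^ 2 := by
      rw [← exp_nat_mul, ← exp_nat_mul]; norm_num
    have h3 : exp 1 < 2.7182818286 := exp_one_lt_d9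
    by_contra hcon
    push Not at hcon
    have h4 : (420 / 256 : ℝ) ^ 5 < (exp (2 / 5 : ℝ)) ^ 5 := by gcongr
    rw [h2] at h4
    have h5 : (exp 1) ^ 2 < (2.7182818286 : ℝ) ^ 2 := by
      gcongr
    norm_num at h4 h5
    linarith
  rw [le_log_iff_exp_le (by norm_num)]
  exact h

theorem leaf_few (s T : Finset ι) (hT : T ⊆ s) (f : ι → ℝ) (hf0 : ∀ i ∈ s, 0 ≤ f i)
    (hfT : ∀ i ∈ s, i ∉ T → f i = 0) {m : ℝ} (hcard : T.card ≤ 256)
    (hm0 : 0 ≤ m) (hm : 0 < ∑ i ∈ s, f i → 0 < m) :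
    (∑ i ∈ s, f i) * log 16 + (∑ i ∈ s, f i) - 6720 * m + (2 / 5) * ∑ i ∈ s, f i
      ≤ ∑ i ∈ s, f i * log (f i / m) := by
  rcases (sum_nonneg hf0).eq_or_lt with h | h
  · have h0 := (sum_eq_zero_iff_of_nonneg hf0).1 h.symm
    rw [← h, sum_eq_zero (f := fun i => f i * log (f i / m)) (fun i hi => by rw [h0 i hi]; simp)]
    linarith
  · have h1 := leaf_split s f hf0 (n := 420) (by norm_num) h (hm h) 0
    rw [exp_zero] at h1
    set F := ∑ i ∈ s, f i with hFdef
    have hu : 0 < F / 256 := by positivity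
    have h2 : (2 / 5) * F ≤ ∑ i ∈ s, f i * log (f i / (F / 420)) := by
      have h3 : ∑ i ∈ s, f i * log (f i / (F / 420)) =
          ∑ i ∈ T, (f i * log (f i / (F / 256)) + f i * log (420 / 256)) := by
        symm
        have h30 : ∑ i ∈ T, f i * log (f i / (F / 420)) = ∑ i ∈ s, f i * log (f i / (F / 420)) := by
          apply sum_subset hT
          intro i hi hiT
          rw [hfT i hi hiT]; simp
        rw [← h30]
        apply sum_congr rfl
        intro i hi
        rcases (hf0 i (hT hi)).eq_or_lt with h | h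
        · rw [← h]; simp
        · rw [← mul_add, ← log_mul (by positivity) (by positivity)]
          congr 2
          field_simp
      rw [h3, sum_add_distrib, ← sum_mul]
      have h4 : ∑ i ∈ T, (f i - F / 256) ≤ ∑ i ∈ T, f i * log (f i / (F / 256)) :=
        sum_le_sum fun i hi => mul_log_ge_sub (hf0 i (hT hi)) hu
      have h5 : ∑ i ∈ T, f i = F := by
        rw [hFdef]
        exact sum_subset hT (fun i hi hiT => hfT i hi hiT)
      rw [sum_sub_distrib, h5, sum_const, nsmul_eq_mul] at h4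
      rw [h5]
      have h6 : (T.card : ℝ) * (F / 256) ≤ F := by
        calc (T.card : ℝ) * (F / 256) ≤ 256 * (F / 256) := by
              exact mul_le_mul_of_nonneg_right (by exact_mod_cast hcard) hu.le
          _ = F := by field_simp
      have h7 := mul_le_mul_of_nonneg_left log_ratio h.le
      linarith
    linarith

end H287R3.Ext
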