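import Pool.Agent.H287R3.Ext.Comb
import Pool.Agent.H287R3.Ext.Leaf

/-! The analytic lower bound for leaf systems. -/

namespace H287R3.Ext

open Finset Real

section cards

variable (K : Type) [Fintype K] [DecidableEq K]

/-- Triples `(c, s, e)` of distinct elements. -/
def Tr : Finset (K × K × K) :=
  univ.filter fun τ => τ.1 ≠ τ.2.1 ∧ τ.1 ≠ τ.2.2 ∧ τ.2.1 ≠ τ.2.2

/-- States `(h, c, s, e)`. -/
def St : Finset (Bool × K × K × K) := univ ×ˢ Tr K

variable {K}

def Trc (c : K) : Finset (K × K × K) := (Tr K).filter (·.1 = c)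

def Stc (c : K) : Finset (Bool × K × K × K) := (St K).filter (·.2.1 = c)

theorem mem_Tr {τ : K × K × K} : τ ∈ Tr K ↔ τ.1 ≠ τ.2.1 ∧ τ.1 ≠ τ.2.2 ∧ τ.2.1 ≠ τ.2.2 := by
  simp [Tr]

theorem mem_St {σ : Bool × K × K × K} : σ ∈ St K ↔ σ.2 ∈ Tr K := by
  simp [St]

theorem mem_Trc {c : K} {τ : K × K × K} : τ ∈ Trc c ↔ τ ∈ Tr K ∧ τ.1 = c := by
  simp [Trc]

theorem card_Trc (hK : Fintype.card K = 16) (c : K) : (Trc c).card = 210 := by
  have h : Trc c = ((univ.erase c).offDiag).image (fun p : K × K => (c, p.1, p.2)) := by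
    ext ⟨a, s, e⟩
    simp only [mem_Trc, mem_Tr, mem_image, mem_offDiag, mem_erase, mem_univ, and_true, ne_eq,
      Prod.mk.injEq, Prod.exists]
    constructor
    · rintro ⟨⟨h1, h2, h3⟩, rfl⟩
      exact ⟨s, e, ⟨fun h => h1 h.symm, fun h => h2 h.symm, h3⟩, rfl, rfl, rfl⟩
    · rintro ⟨s', e', ⟨h1, h2, h3⟩, rfl, rfl, rfl⟩
      exact ⟨⟨fun h => h1 h.symm, fun h => h2 h.symm, h3⟩, rfl⟩
  rw [h, card_image_of_injective, offDiag_card, card_erase_of_mem (mem_univ c), card_univ, hK]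
  rintro ⟨a, b⟩ ⟨a', b'⟩ h
  simp only [Prod.mk.injEq, true_and] at h
  exact Prod.ext h.1 h.2

theorem sum_Tr {M : Type} [AddCommMonoid M] (φ : K × K × K → M) :
    ∑ τ ∈ Tr K, φ τ = ∑ c, ∑ τ ∈ Trc c, φ τ := by
  rw [← sum_fiberwise_of_maps_to (s := Tr K) (t := univ) (g := fun τ => τ.1)
    (fun _ _ => mem_univ _)]
  rfl

theorem card_Tr (hK : Fintype.card K = 16) : (Tr K).card = 3360 := by
  have h := sum_Tr (K := K) (fun _ => 1)
  rw [sum_const, smul_eq_mul, mul_one] at h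
  rw [h]
  simp only [sum_const, smul_eq_mul, mul_one, card_Trc hK, card_univ, hK]

theorem sum_St {M : Type} [AddCommMonoid M] (φ : Bool × K × K × K → M) :
    ∑ σ ∈ St K, φ σ = ∑ τ ∈ Tr K, (φ (false, τ) + φ (true, τ)) := by
  rw [St, sum_product_right]
  apply sum_congr rfl
  intro τ _
  rw [Fintype.sum_bool, add_comm]

theorem sum_Stc {M : Type} [AddCommMonoid M] (c : K) (φ : Bool × K × K × K → M) :
    ∑ σ ∈ Stc c, φ σ = ∑ τ ∈ Trc c, (φ (false, τ) + φ (true, τ)) := by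
  have : Stc c = univ ×ˢ Trc c := by
    ext ⟨h, τ⟩
    simp [Stc, St, Trc]
  rw [this, sum_product_right]
  apply sum_congr rfl
  intro τ _
  rw [Fintype.sum_bool, add_comm]

theorem card_Stc (hK : Fintype.card K = 16) (c : K) : (Stc c).card = 420 := by
  have h := sum_Stc (K := K) c (fun _ => 1)
  rw [sum_const, smul_eq_mul, mul_one] at h
  rw [h]
  simp only [sum_const, smul_eq_mul, card_Trc hK]
  norm_num

theorem card_St (hK : Fintype.card K = 16) : (St K).card = 6720 := by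
  have h := sum_St (K := K) (fun _ => 1)
  rw [sum_const, smul_eq_mul, mul_one] at h
  rw [h]
  simp only [sum_const, smul_eq_mul, card_Tr hK]
  norm_num

/-- Swapping `c` and `e`. -/
theorem sum_Tr_swap {M : Type} [AddCommMonoid M] (φ : K → K → K → M) :
    ∑ τ ∈ Tr K, φ τ.1 τ.2.1 τ.2.2 = ∑ τ ∈ Tr K, φ τ.2.2 τ.2.1 τ.1 := by
  refine sum_nbij' (fun τ => (τ.2.2, τ.2.1, τ.1)) (fun τ => (τ.2.2, τ.2.1, τ.1)) ?_ ?_ ?_ ?_ ?_
  · intro τ hτ
    rw [mem_Tr] at hτ ⊢
    exact ⟨hτ.2.2.symm, hτ.2.1.symm, hτ.1.symm⟩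
  · intro τ hτ
    rw [mem_Tr] at hτ ⊢
    exact ⟨hτ.2.2.symm, hτ.2.1.symm, hτ.1.symm⟩
  · intro τ _; rfl
  · intro τ _; rfl
  · intro τ _; rfl

end cards

/-- One leaf: if Alice's weights are not nearly constant, then one of the two defects is large. -/
theorem not_good {K : Type} [Fintype K] [DecidableEq K] (hK : Fintype.card K = 16) (c : K)
    (a b : Bool → K → ℝ) (ha : ∀ h s, 0 ≤ a h s) {F : ℝ} (hF : 0 < F)
    {h : Bool} {s0 e0 : K} (hs0 : s0 ≠ c) (he0 : e0 ≠ c)
    (hlt : a false e0 < 3 / 4 * a h s0) :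
    F / 1050000 ≤
      (∑ τ ∈ Trc c, ((√(a false τ.2.1 * b false τ.2.2) - √(F / 420)) ^ 2
        + (√(a true τ.2.1 * b true τ.2.2) - √(F / 420)) ^ 2))
      + ∑ τ ∈ Trc c, (√(a false τ.2.1 * b true τ.2.2) - √(a true τ.2.1 * b false τ.2.2)) ^ 2 := by
  by_contra hcon
  push Not at hcon
  have hu2 : 0 < F / 420 := by positivity
  set u := √(F / 420) with hu
  have hupos : 0 < u := Real.sqrt_pos.2 hu2
  have husq : u ^ 2 = F / 420 := Real.sq_sqrt hu2.le
  have hFu : F / 1050000 = (u / 50) ^ 2 := by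
    rw [div_pow, husq]; ring
  rw [hFu] at hcon
  have hn1 : ∀ τ ∈ Trc c, 0 ≤ (√(a false τ.2.1 * b false τ.2.2) - u) ^ 2
        + (√(a true τ.2.1 * b true τ.2.2) - u) ^ 2 := fun τ _ => by positivity
  have hn2 : ∀ τ ∈ Trc c, 0 ≤ (√(a false τ.2.1 * b true τ.2.2)
      - √(a true τ.2.1 * b false τ.2.2)) ^ 2 := fun τ _ => by positivity
  have hS1 := sum_nonneg hn1
  have hS2 := sum_nonneg hn2
  have key1 : ∀ (h' : Bool) (s e : K), s ≠ c → e ≠ c → s ≠ e →
      |√(a h' s) * √(b h' e) - u| < u / 50 := by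
    intro h' s e hs he hse
    have hmem : (c, s, e) ∈ Trc c := by
      rw [mem_Trc, mem_Tr]; exact ⟨⟨hs.symm, he.symm, hse⟩, rfl⟩
    have h1 := single_le_sum hn1 hmem
    simp only at h1
    have h2 : (√(a h' s * b h' e) - u) ^ 2 < (u / 50) ^ 2 := by
      cases h'
      · nlinarith [sq_nonneg (√(a true s * b true e) - u)]
      · nlinarith [sq_nonneg (√(a false s * b false e) - u)]
    rw [Real.sqrt_mul (ha _ _)] at h2
    exact abs_lt_of_sq_lt_sq h2 (by positivity)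
  have key2 : ∀ (s e : K), s ≠ c → e ≠ c → s ≠ e →
      |√(a false s) * √(b true e) - √(a true s) * √(b false e)| < u / 50 := by
    intro s e hs he hse
    have hmem : (c, s, e) ∈ Trc c := by
      rw [mem_Trc, mem_Tr]; exact ⟨⟨hs.symm, he.symm, hse⟩, rfl⟩
    have h1 := single_le_sum hn2 hmem
    simp only at h1
    have h2 : (√(a false s * b true e) - √(a true s * b false e)) ^ 2 < (u / 50) ^ 2 := by
      linarith
    rw [Real.sqrt_mul (ha _ _), Real.sqrt_mul (ha _ _)] at h2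
    exact abs_lt_of_sq_lt_sq h2 (by positivity)
  obtain ⟨w, hw⟩ : ∃ w, w ∉ ({c, s0, e0} : Finset K) := by
    by_contra hall
    push Not at hall
    have h1 : (univ : Finset K) ⊆ {c, s0, e0} := fun x _ => hall x
    have h2 := card_le_card h1
    have h3 := card_le_three (a := c) (b := s0) (c := e0)
    rw [card_univ, hK] at h2
    omega
  simp only [mem_insert, mem_singleton, not_or] at hw
  obtain ⟨hwc, hws, hwe⟩ := hw
  have hsq : √(a false e0) ≤ 7 / 8 * √(a h s0) := by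
    have h1 : a false e0 ≤ (7 / 8) ^ 2 * a h s0 := by
      have := ha h s0
      nlinarith
    calc √(a false e0) ≤ √((7 / 8) ^ 2 * a h s0) := Real.sqrt_le_sqrt h1
      _ = 7 / 8 * √(a h s0) := by
        rw [Real.sqrt_mul (by positivity), Real.sqrt_sq (by norm_num)]
  have k1 := key1 false e0 w he0 hwc (Ne.symm hwe)
  have k2 := key1 h s0 w hs0 hwc (Ne.symm hws)
  rw [abs_lt] at k1 k2
  cases h with
  | false =>
    have hb0 := Real.sqrt_nonneg (b false w)
    nlinarith [mul_le_mul_of_nonneg_right hsq hb0]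
  | true =>
    have k3 := key1 true e0 w he0 hwc (Ne.symm hwe)
    have k4 := key2 e0 w he0 hwc (Ne.symm hwe)
    rw [abs_lt] at k3 k4
    have hb1 := Real.sqrt_nonneg (b true w)
    have hb0 := Real.sqrt_nonneg (b false w)
    have hp := Real.sqrt_nonneg (a false e0)
    have hq := Real.sqrt_nonneg (a true e0)
    have h5 := mul_le_mul_of_nonneg_right hsq hb1
    set p := √(a false e0)
    set q := √(a true e0)
    set r := √(a true s0)
    set β0 := √(b false w)
    set β1 := √(b true w)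
    -- p β1 ≤ 0.8925 u
    have h6 : p * β1 ≤ 8925 / 10000 * u := by nlinarith
    have h7 : q * β0 ≤ 9125 / 10000 * u := by nlinarith
    have h8 : (98 / 100 * u) * (98 / 100 * u) ≤ (p * β0) * (q * β1) := by
      apply mul_le_mul <;> nlinarith
    have h9 : (p * β1) * (q * β0) ≤ (8925 / 10000 * u) * (9125 / 10000 * u) := by
      apply mul_le_mul h6 h7 <;> positivity
    nlinarith [mul_pos hupos hupos]

end H287R3.Ext
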