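import Pool.Agent.H287R3.Ext.Comb2
import Pool.Agent.H287R3.Ext.Enc

/-! The block protocol: parities of blocks, with binary splitting. -/

namespace ExtInfo

open Finset

/-- Dyadic index sets. -/
def D : ℕ → Type
  | 0 => Unit
  | r + 1 => D r ⊕ D r

instance instFintypeD : (r : ℕ) → Fintype (D r)
  | 0 => inferInstanceAs (Fintype Unit)
  | r + 1 => @instFintypeSum (D r) (D r) (instFintypeD r) (instFintypeD r)

instance instDecidableEqD : (r : ℕ) → DecidableEq (D r)
  | 0 => inferInstanceAs (DecidableEq Unit)
  | r + 1 => @instDecidableEqSum (D r) (D r) (instDecidableEqD r) (instDecidableEqD r)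

theorem card_D (r : ℕ) : Fintype.card (D r) = 2 ^ r := by
  induction r with
  | zero => rfl
  | succ r ih =>
    have : Fintype.card (D (r + 1)) = Fintype.card (D r) + Fintype.card (D r) :=
      Fintype.card_sum
    rw [this, ih]; ring

theorem sum_D {M : Type} [AddCommMonoid M] (r : ℕ) (φ : D (r + 1) → M) :
    ∑ i, φ i = ∑ i : D r, φ (Sum.inl i) + ∑ i : D r, φ (Sum.inr i) :=
  Fintype.sum_sum_type φ

/-- Bit as an element of `ZMod 2`. -/
def toZ (b : Bool) : ZMod 2 := if b then 1 else 0

theorem toZ_decide (a : ZMod 2) : toZ (decide (a = 1)) = a := by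
  revert a; decide

theorem decide_toZ (b : Bool) : decide (toZ b = 1) = b := by
  revert b; decide

variable {K X Y : Type} (E : Enc K X Y)

/-- Number of erasures. -/
def nEr {ι : Type} [Fintype ι] (y : ι → Y) : ℕ := (univ.filter fun i => E.er (y i) = true).card

/-- Bob's decoding rule. -/
def dec {ι : Type} [Fintype ι] (p : Bool) (y : ι → Y) (i : ι) : Bool :=
  if E.er (y i) then
    decide (toZ p - ∑ j, (if E.er (y j) then 0 else toZ (E.z (y j))) = 1)
  else E.z (y i)

/-- First phase: at the end Bob knows all hidden bits (the output is his decoding function). -/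
noncomputable def phase1 : (r : ℕ) → Protocol (D r → X) (D r → Y) ((D r → Y) → D r → Bool)
  | 0 => aliceD (fun x => E.hx (x ())) (fun b => .output (fun _ _ => b))
  | r + 1 => aliceD (fun x => decide (∑ i, toZ (E.hx (x i)) = 1)) (fun p =>
      bobD (fun y => decide (2 ≤ nEr E y)) (fun b =>
        if b then both (phase1 r) (phase1 r) (fun d₁ d₂ y => Sum.elim
          (d₁ fun i => y (Sum.inl i)) (d₂ fun i => y (Sum.inr i)))
        else .output (dec E p)))

/-- Compatible pairs of inputs. -/
def Supp (x : X) (y : Y) : Prop :=
  E.mem x (E.t y (E.hx x)) = true ∧ (E.er y = false → E.z y = E.hx x)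

theorem dec_eq {ι : Type} [Fintype ι] {x : ι → X} {y : ι → Y} (h : ∀ i, Supp E (x i) (y i))
    (hn : nEr E y < 2) :
    dec E (decide (∑ i, toZ (E.hx (x i)) = 1)) y = fun i => E.hx (x i) := by
  classical
  funext i
  unfold dec
  by_cases he : E.er (y i) = true
  · rw [if_pos he, toZ_decide, ← sum_sub_distrib]
    have h1 : ∀ j, toZ (E.hx (x j)) - (if E.er (y j) = true then 0 else toZ (E.z (y j))) =
        if j = i then toZ (E.hx (x i)) else 0 := by
      intro j
      by_cases hj : j = i
      · subst hj; rw [if_pos he, if_pos rfl, sub_zero]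
      · rw [if_neg hj]
        have : E.er (y j) = false := by
          by_contra hcon
          rw [Bool.not_eq_false] at hcon
          have h2 : ({i, j} : Finset ι) ⊆ univ.filter fun i => E.er (y i) = true := by
            intro a ha
            rw [mem_insert, mem_singleton] at ha
            rw [mem_filter]
            rcases ha with rfl | rfl
            · exact ⟨mem_univ _, he⟩
            · exact ⟨mem_univ _, hcon⟩
          have h3 := card_le_card h2
          rw [card_pair (Ne.symm hj)] at h3
          unfold nEr at hn
          omega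
        rw [this, if_neg (by simp), (h j).2 this, sub_self]
    rw [sum_congr rfl fun j _ => h1 j, sum_ite_eq' univ i, if_pos (mem_univ _), decide_toZ]
  · rw [if_neg he]
    rw [Bool.not_eq_true] at he
    exact (h i).2 he

theorem all_phase1 : (r : ℕ) → (x : D r → X) → (y : D r → Y) → (∀ i, Supp E (x i) (y i)) →
    All (phase1 E r) x y (fun d => d y = fun i => E.hx (x i))
  | 0, x, y, _ => by
    unfold phase1
    apply all_aliceD
    funext i
    rfl
  | r + 1, x, y, h => by
    unfold phase1
    apply all_aliceD
    apply all_bobD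
    by_cases hn : 2 ≤ nEr E y
    · simp only [hn, decide_true]
      refine all_both (all_phase1 r _ _ fun i => h (Sum.inl i))
        (all_phase1 r _ _ fun i => h (Sum.inr i)) ?_
      intro d₁ d₂ h₁ h₂
      funext i
      rcases i with i | i
      · exact congrFun h₁ i
      · exact congrFun h₂ i
    · simp only [hn, decide_false, Bool.false_eq_true]
      exact dec_eq E h (not_le.1 hn)

/-- Real number of erasures. -/
noncomputable def N {ι : Type} [Fintype ι] (y : ι → Y) : ℝ :=
  ∑ i, (if E.er (y i) = true then (1 : ℝ) else 0)

theorem N_eq {ι : Type} [Fintype ι] (y : ι → Y) : N E y = (nEr E y : ℝ) := by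
  unfold N nEr
  rw [sum_boole]

/-- Number of pairs of erasures in the dyadic blocks. -/
noncomputable def W : (r : ℕ) → (D r → Y) → ℝ
  | 0, _ => 0
  | r + 1, y => N E y * (N E y - 1) / 2 + W r (fun i => y (Sum.inl i))
      + W r (fun i => y (Sum.inr i))

theorem pairs_nonneg {ι : Type} [Fintype ι] (y : ι → Y) : 0 ≤ N E y * (N E y - 1) / 2 := by
  rw [N_eq]
  rcases Nat.eq_zero_or_pos (nEr E y) with h | h
  · rw [h]; simp
  · have : (1 : ℝ) ≤ nEr E y := by exact_mod_cast h
    have h2 : 0 ≤ (nEr E y : ℝ) - 1 := by linarith
    positivity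

theorem W_nonneg : (r : ℕ) → (y : D r → Y) → 0 ≤ W E r y
  | 0, _ => le_refl _
  | r + 1, y => by
    have h1 := pairs_nonneg E y
    have h2 := W_nonneg r (fun i => y (Sum.inl i))
    have h3 := W_nonneg r (fun i => y (Sum.inr i))
    unfold W
    linarith

theorem bits_phase1 : (r : ℕ) → (x : D r → X) → (y : D r → Y) →
    bits (phase1 E r) x y ≤ 2 + 4 * W E r y
  | 0, x, y => by
    unfold phase1 W
    rw [bits_aliceD]
    simp only [bits]
    norm_num
  | r + 1, x, y => by
    unfold phase1
    rw [bits_aliceD, bits_bobD]
    have h1 := pairs_nonneg E y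
    have h2 := W_nonneg E r (fun i => y (Sum.inl i))
    have h3 := W_nonneg E r (fun i => y (Sum.inr i))
    have hW : W E (r + 1) y = N E y * (N E y - 1) / 2 + W E r (fun i => y (Sum.inl i))
      + W E r (fun i => y (Sum.inr i)) := rfl
    by_cases hn : 2 ≤ nEr E y
    · simp only [hn, decide_true]
      have h4 := bits_both (ι := D r) (κ := D r) (O := (D (r + 1) → Y) → D (r + 1) → Bool)
        (phase1 E r) (phase1 E r) (fun d₁ d₂ y => Sum.elim
          (d₁ fun i => y (Sum.inl i)) (d₂ fun i => y (Sum.inr i))) x y
      have h5 := bits_phase1 r (fun i => x (Sum.inl i)) (fun i => y (Sum.inl i))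
      have h6 := bits_phase1 r (fun i => x (Sum.inr i)) (fun i => y (Sum.inr i))
      have h7 : 1 ≤ N E y * (N E y - 1) / 2 := by
        rw [N_eq]
        have : (2 : ℝ) ≤ nEr E y := by exact_mod_cast hn
        nlinarith
      rw [hW]
      refine le_trans (add_le_add_right (add_le_add_right h4 1) 1) ?_
      linarith
    · rw [decide_eq_false hn, hW]
      change (1 : ℝ) + (1 + 0) ≤ _
      linarith

section full

variable [DecidableEq X] [DecidableEq Y] [Fintype X] [Fintype Y] (code : K ≃ (Fin 4 → Bool))

/-- The whole block protocol. -/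
noncomputable def block (r : ℕ) : Protocol (D r → X) (D r → Y) (D r → Bool) :=
  bind (phase1 E r) fun d =>
    sendB (fun y (j : D r × Fin 4) => code (E.t (y j.1) (d y j.1)) j.2)
      (fun w => aliceD (fun x => decide (∀ i, E.mem (x i) (code.symm fun b => w (i, b)) = true))
        (fun ok => if ok then .output (fun _ => true) else tellAll (power (D r) E.F) (fun _ => true)))
      univ.toList (fun _ => false)

theorem block_zeroError (r : ℕ) : ZeroError (block E code r) (power (D r) E.F) := by
  apply zeroError_of_all
  intro x y
  unfold block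
  refine all_bind (all_true _ _ _) fun d _ => ?_
  apply all_sendB
  apply all_aliceD
  simp only [mem_toList, mem_univ, if_true]
  by_cases hok : ∀ i, E.mem (x i) (code.symm fun b => code (E.t (y i) (d y i)) b) = true
  · rw [decide_eq_true hok]
    simp only [if_true]
    funext i
    have h1 := hok i
    have h2 : (code.symm fun b => code (E.t (y i) (d y i)) b) = E.t (y i) (d y i) :=
      code.symm_apply_apply _
    rw [h2] at h1
    unfold power Enc.F
    cases hd : d y i
    · rw [hd] at h1
      simp [h1]
    · rw [hd] at h1
      simp [h1]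
  · rw [decide_eq_false hok]
    simp only [Bool.false_eq_true, if_false]
    exact all_tellAll _ _ _ _

theorem block_bits (r : ℕ) (x : D r → X) (y : D r → Y) (h : ∀ i, Supp E (x i) (y i)) :
    bits (block E code r) x y ≤ 4 * 2 ^ r + 3 + 4 * W E r y := by
  unfold block
  refine (bits_bind_le (C := 4 * 2 ^ r + 1) (all_phase1 E r x y h) fun d hd => ?_).trans ?_
  · rw [bits_sendB, bits_aliceD]
    simp only [mem_toList, mem_univ, if_true]
    have hok : ∀ i, E.mem (x i) (code.symm fun b => code (E.t (y i) (d y i)) b) = true := by
      intro i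
      have h2 : (code.symm fun b => code (E.t (y i) (d y i)) b) = E.t (y i) (d y i) :=
        code.symm_apply_apply _
      rw [h2, hd]
      exact (h i).1
    rw [decide_eq_true hok]
    simp only [if_true, bits]
    rw [length_toList, card_univ, Fintype.card_prod, card_D, Fintype.card_fin]
    push_cast
    linarith
  · have := bits_phase1 E r x y
    linarith

end full

end ExtInfo
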