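import Pool.Agent.H287R3.Ext.Phase

/-! Product distributions: expectations, subadditivity. -/

namespace ExtInfo

open Finset

section Ex

variable {X Y : Type} [Fintype X] [Fintype Y]

/-- Expectation. -/
noncomputable def Ex (ν : X → Y → ℝ) (G : X → Y → ℝ) : ℝ := ∑ x, ∑ y, ν x y * G x y

theorem Ex_add (ν G H : X → Y → ℝ) : Ex ν (fun x y => G x y + H x y) = Ex ν G + Ex ν H := by
  unfold Ex
  simp only [mul_add, sum_add_distrib]

theorem Ex_smul (ν : X → Y → ℝ) (c : ℝ) (G : X → Y → ℝ) :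
    Ex ν (fun x y => c * G x y) = c * Ex ν G := by
  unfold Ex
  rw [mul_sum]
  apply sum_congr rfl
  intro x _
  rw [mul_sum]
  apply sum_congr rfl
  intro y _
  ring

theorem Ex_mono {ν : X → Y → ℝ} (h0 : ∀ x y, 0 ≤ ν x y) {G H : X → Y → ℝ}
    (h : ∀ x y, ν x y ≠ 0 → G x y ≤ H x y) : Ex ν G ≤ Ex ν H := by
  unfold Ex
  apply sum_le_sum
  intro x _
  apply sum_le_sum
  intro y _
  by_cases hν : ν x y = 0
  · rw [hν, zero_mul, zero_mul]
  · exact mul_le_mul_of_nonneg_left (h x y hν) (h0 x y)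

theorem Ex_const {ν : X → Y → ℝ} (hν : IsDistribution ν) (c : ℝ) : Ex ν (fun _ _ => c) = c := by
  unfold Ex
  simp only [← sum_mul]
  rw [hν.2, one_mul]

theorem Ex_prod {ι κ : Type} [Fintype ι] [Fintype κ] [DecidableEq ι] [DecidableEq κ]
    (μ : X → Y → ℝ) (G : (ι → X) → (ι → Y) → ℝ) (H : (κ → X) → (κ → Y) → ℝ) :
    Ex (powerDist (ι ⊕ κ) μ) (fun x y => G (fun i => x (Sum.inl i)) (fun i => y (Sum.inl i)) *
      H (fun i => x (Sum.inr i)) (fun i => y (Sum.inr i)))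
      = Ex (powerDist ι μ) G * Ex (powerDist κ μ) H := by
  unfold Ex
  rw [sum_mul_sum, ← (Equiv.sumArrowEquivProdArrow ι κ X).symm.sum_comp, Fintype.sum_prod_type]
  apply sum_congr rfl
  intro x₁ _
  apply sum_congr rfl
  intro x₂ _
  rw [sum_mul_sum, ← (Equiv.sumArrowEquivProdArrow ι κ Y).symm.sum_comp, Fintype.sum_prod_type]
  apply sum_congr rfl
  intro y₁ _
  apply sum_congr rfl
  intro y₂ _
  have e : powerDist (ι ⊕ κ) μ ((Equiv.sumArrowEquivProdArrow ι κ X).symm (x₁, x₂))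
      ((Equiv.sumArrowEquivProdArrow ι κ Y).symm (y₁, y₂))
      = powerDist ι μ x₁ y₁ * powerDist κ μ x₂ y₂ := by
    unfold powerDist
    rw [Fintype.prod_sum_type]
    rfl
  rw [e]
  change powerDist ι μ x₁ y₁ * powerDist κ μ x₂ y₂ * (G x₁ y₁ * H x₂ y₂) = _
  ring

theorem powerDist_dist {ι : Type} [Fintype ι] [DecidableEq ι] {μ : X → Y → ℝ}
    (hμ : IsDistribution μ) : IsDistribution (powerDist ι μ) := by
  classical
  constructor
  · intro x y
    exact prod_nonneg fun i _ => hμ.1 _ _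
  · have h1 : ∀ x : ι → X, ∑ y : ι → Y, powerDist ι μ x y = ∏ i, ∑ b, μ (x i) b := by
      intro x
      rw [prod_univ_sum, Fintype.piFinset_univ]
      rfl
    rw [sum_congr rfl fun x _ => h1 x]
    have h2 : ∑ x : ι → X, ∏ i, ∑ b, μ (x i) b = ∏ _i : ι, ∑ a, ∑ b, μ a b := by
      rw [prod_univ_sum, Fintype.piFinset_univ]
    rw [h2, hμ.2, prod_const_one]

theorem Ex_inl {ι κ : Type} [Fintype ι] [Fintype κ] [DecidableEq ι] [DecidableEq κ]
    {μ : X → Y → ℝ} (hμ : IsDistribution μ) (G : (ι → X) → (ι → Y) → ℝ) :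
    Ex (powerDist (ι ⊕ κ) μ) (fun x y => G (fun i => x (Sum.inl i)) (fun i => y (Sum.inl i)))
      = Ex (powerDist ι μ) G := by
  have := Ex_prod μ G (fun (_ : κ → X) (_ : κ → Y) => 1)
  rw [Ex_const (powerDist_dist hμ)] at this
  simpa using this

theorem Ex_inr {ι κ : Type} [Fintype ι] [Fintype κ] [DecidableEq ι] [DecidableEq κ]
    {μ : X → Y → ℝ} (hμ : IsDistribution μ) (H : (κ → X) → (κ → Y) → ℝ) :
    Ex (powerDist (ι ⊕ κ) μ) (fun x y => H (fun i => x (Sum.inr i)) (fun i => y (Sum.inr i)))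
      = Ex (powerDist κ μ) H := by
  have := Ex_prod μ (fun (_ : ι → X) (_ : ι → Y) => 1) H
  rw [Ex_const (powerDist_dist hμ)] at this
  simpa using this

theorem Ex_equiv {ι κ : Type} [Fintype ι] [Fintype κ] [DecidableEq ι] [DecidableEq κ]
    (e : κ ≃ ι) (μ : X → Y → ℝ) (G : (κ → X) → (κ → Y) → ℝ) :
    Ex (powerDist ι μ) (fun x y => G (fun i => x (e i)) (fun i => y (e i)))
      = Ex (powerDist κ μ) G := by
  unfold Ex
  rw [← (Equiv.arrowCongr e.symm (Equiv.refl X)).sum_comp (fun x => ∑ y, powerDist κ μ x y * G x y)]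
  apply sum_congr rfl
  intro x _
  rw [← (Equiv.arrowCongr e.symm (Equiv.refl Y)).sum_comp]
  apply sum_congr rfl
  intro y _
  have h1 : powerDist κ μ ((Equiv.arrowCongr e.symm (Equiv.refl X)) x)
      ((Equiv.arrowCongr e.symm (Equiv.refl Y)) y) = powerDist ι μ x y := by
    unfold powerDist
    exact e.prod_comp (fun i => μ (x i) (y i))
  rw [h1]
  rfl

end Ex

section CC

variable {X Y O : Type} [Fintype X] [Fintype Y]

theorem expBits_Ex (μ : X → Y → ℝ) (t : Protocol X Y O) : expBits μ t = Ex μ (bits t) :=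
  expBits_eq μ t

theorem CCavg_le {F : X → Y → O} {μ : X → Y → ℝ} (hμ : ∀ x y, 0 ≤ μ x y) {t : Protocol X Y O}
    (ht : ZeroError t F) : CCavg F μ ≤ expBits μ t := by
  apply csInf_le
  · refine ⟨0, ?_⟩
    rintro c ⟨t', _, rfl⟩
    rw [expBits_eq]
    exact sum_nonneg fun x _ => sum_nonneg fun y _ => mul_nonneg (hμ x y) (bits_nonneg _ _ _)
  · exact ⟨t, ht, rfl⟩

theorem CCavg_nonneg (F : X → Y → O) {μ : X → Y → ℝ} (hμ : ∀ x y, 0 ≤ μ x y) :
    0 ≤ CCavg F μ := by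
  apply Real.sInf_nonneg
  rintro c ⟨t', _, rfl⟩
  rw [expBits_eq]
  exact sum_nonneg fun x _ => sum_nonneg fun y _ => mul_nonneg (hμ x y) (bits_nonneg _ _ _)

theorem tellAll_zeroError [DecidableEq X] [DecidableEq Y] (F : X → Y → O) (o : O) :
    ZeroError (tellAll F o) F :=
  zeroError_of_all fun x y => all_tellAll F o x y

theorem le_CCavg [DecidableEq X] [DecidableEq Y] {F : X → Y → O} (o : O) {μ : X → Y → ℝ} {c : ℝ}
    (h : ∀ t : Protocol X Y O, ZeroError t F → c ≤ expBits μ t) : c ≤ CCavg F μ := by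
  apply le_csInf
  · exact ⟨_, tellAll F o, tellAll_zeroError F o, rfl⟩
  · rintro c' ⟨t, ht, rfl⟩
    exact h t ht

theorem le_ICext [DecidableEq X] [DecidableEq Y] {F : X → Y → O} (o : O) {μ : X → Y → ℝ} {c : ℝ}
    (h : ∀ t : Protocol X Y O, ZeroError t F → c ≤ extInfo μ t) : c ≤ ICext F μ := by
  apply le_csInf
  · exact ⟨_, tellAll F o, tellAll_zeroError F o, rfl⟩
  · rintro c' ⟨t, ht, rfl⟩
    exact h t ht

theorem CCavg_add [DecidableEq X] [DecidableEq Y] {ι κ : Type} [Fintype ι] [Fintype κ]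
    [DecidableEq ι] [DecidableEq κ] (F : X → Y → O) (o : O) {μ : X → Y → ℝ}
    (hμ : IsDistribution μ) :
    CCavg (power (ι ⊕ κ) F) (powerDist (ι ⊕ κ) μ) ≤
      CCavg (power ι F) (powerDist ι μ) + CCavg (power κ F) (powerDist κ μ) := by
  have key : ∀ (t₁ : Protocol (ι → X) (ι → Y) (ι → O)) (t₂ : Protocol (κ → X) (κ → Y) (κ → O)),
      ZeroError t₁ (power ι F) → ZeroError t₂ (power κ F) →
      CCavg (power (ι ⊕ κ) F) (powerDist (ι ⊕ κ) μ) ≤
        expBits (powerDist ι μ) t₁ + expBits (powerDist κ μ) t₂ := by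
    intro t₁ t₂ h₁ h₂
    have hz : ZeroError (both t₁ t₂ (fun o₁ o₂ => (Sum.elim o₁ o₂ : ι ⊕ κ → O)))
        (power (ι ⊕ κ) F) := by
      apply zeroError_of_all
      intro x y
      refine all_both (zeroError_iff.1 h₁ _ _) (zeroError_iff.1 h₂ _ _) ?_
      rintro o₁ o₂ rfl rfl
      funext i
      rcases i with i | i <;> rfl
    refine (CCavg_le (powerDist_dist hμ).1 hz).trans ?_
    rw [expBits_Ex, expBits_Ex, expBits_Ex, ← Ex_inl (κ := κ) hμ (bits t₁),
      ← Ex_inr (ι := ι) hμ (bits t₂), ← Ex_add]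
    exact Ex_mono (powerDist_dist hμ).1 fun x y _ => bits_both _ _ _ _ _
  have h1 : ∀ t₂ : Protocol (κ → X) (κ → Y) (κ → O), ZeroError t₂ (power κ F) →
      CCavg (power (ι ⊕ κ) F) (powerDist (ι ⊕ κ) μ) - expBits (powerDist κ μ) t₂ ≤
        CCavg (power ι F) (powerDist ι μ) := by
    intro t₂ h₂
    apply le_CCavg (fun _ => o)
    intro t₁ h₁
    linarith [key t₁ t₂ h₁ h₂]
  have h2 : CCavg (power (ι ⊕ κ) F) (powerDist (ι ⊕ κ) μ) - CCavg (power ι F) (powerDist ι μ) ≤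
      CCavg (power κ F) (powerDist κ μ) := by
    apply le_CCavg (fun _ => o)
    intro t₂ h₂
    linarith [h1 t₂ h₂]
  linarith

theorem CCavg_equiv [DecidableEq X] [DecidableEq Y] {ι κ : Type} [Fintype ι] [Fintype κ]
    [DecidableEq ι] [DecidableEq κ] (e : κ ≃ ι) (F : X → Y → O) (o : O) {μ : X → Y → ℝ}
    (hμ : IsDistribution μ) :
    CCavg (power ι F) (powerDist ι μ) ≤ CCavg (power κ F) (powerDist κ μ) := by
  apply le_CCavg (fun _ => o)
  intro t ht
  have hz : ZeroError (bind (comap (fun (x : ι → X) i => x (e i)) (fun (y : ι → Y) i => y (e i)) t)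
      (fun o' => .output (fun i => o' (e.symm i)))) (power ι F) := by
    apply zeroError_of_all
    intro x y
    refine all_bind (all_comap (zeroError_iff.1 ht _ _)) ?_
    rintro o' rfl
    funext i
    simp [power]
  refine (CCavg_le (powerDist_dist hμ).1 hz).trans ?_
  rw [expBits_Ex, expBits_Ex, ← Ex_equiv e μ (bits t)]
  apply Ex_mono (powerDist_dist hμ).1
  intro x y _
  refine (bits_bind_le (C := 0) (all_true _ _ _) fun o₂ _ => ?_).trans ?_
  · exact le_refl _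
  · rw [bits_comap, add_zero]

theorem subadditive [DecidableEq X] [DecidableEq Y] (F : X → Y → O) (o : O) {μ : X → Y → ℝ}
    (hμ : IsDistribution μ) :
    Subadditive (fun n : ℕ => CCavg (power (Fin n) F) (powerDist (Fin n) μ)) := by
  intro m n
  refine (CCavg_equiv finSumFinEquiv F o hμ).trans ?_
  exact CCavg_add F o hμ

theorem bdd [DecidableEq X] [DecidableEq Y] (F : X → Y → O) {μ : X → Y → ℝ}
    (hμ : IsDistribution μ) :
    BddBelow (Set.range fun n : ℕ => CCavg (power (Fin n) F) (powerDist (Fin n) μ) / (n : ℝ)) := by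
  refine ⟨0, ?_⟩
  rintro c ⟨n, rfl⟩
  exact div_nonneg (CCavg_nonneg _ (powerDist_dist hμ).1) (Nat.cast_nonneg _)

end CC

end ExtInfo
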