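import Pool.Agent.H287R3.Ext.LB

/-! Assembly of the lower bound for leaf systems. -/

namespace H287R3.Ext

open Finset Real

/-- A leaf system: `A v h c s` is Alice's weight of the leaf `v` on the input `(h, {c, s})`,
`BN v h c e` Bob's weight when he has candidates `c` (at place `h`), `e` and knows `h`,
`BE v h c e` the same when he does not know `h`. -/
structure Sys (V K : Type) [Fintype V] [Fintype K] [DecidableEq K] where
  A : V → Bool → K → K → ℝ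
  BN : V → Bool → K → K → ℝ
  BE : V → Bool → K → K → ℝ
  A0 : ∀ v h c s, 0 ≤ A v h c s
  BN0 : ∀ v h c s, 0 ≤ BN v h c s
  BE0 : ∀ v h c s, 0 ≤ BE v h c s
  Asym : ∀ v h c s, A v h c s = A v h s c
  BEsym : ∀ v c e, BE v false c e = BE v true e c
  hN : ∀ h c s h' c' e', ∑ v, A v h c s * BN v h' c' e' = 1
  hE : ∀ h c s h' c' e', ∑ v, A v h c s * BE v h' c' e' = 1
  mono : ∀ v, (∀ h c s h' c' e', 0 < A v h c s → (0 < BN v h' c' e' ∨ 0 < BE v h' c' e') →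
      (({c, s} : Finset K) ∩ {c', e'}).Nonempty) ∨
    (∀ h c s h' c' e', 0 < A v h c s → (0 < BN v h' c' e' ∨ 0 < BE v h' c' e') →
      ¬ (({c, s} : Finset K) ∩ {c', e'}).Nonempty)

namespace Sys

variable {V K : Type} [Fintype V] [Fintype K] [DecidableEq K] (S : Sys V K)

def f (v : V) (σ : Bool × K × K × K) : ℝ := S.A v σ.1 σ.2.1 σ.2.2.1 * S.BN v σ.1 σ.2.1 σ.2.2.2

def g (v : V) (σ : Bool × K × K × K) : ℝ := S.A v σ.1 σ.2.1 σ.2.2.1 * S.BE v σ.1 σ.2.1 σ.2.2.2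

def F (v : V) : ℝ := ∑ σ ∈ St K, S.f v σ

def G (v : V) : ℝ := ∑ σ ∈ St K, S.g v σ

theorem f0 (v σ) : 0 ≤ S.f v σ := mul_nonneg (S.A0 _ _ _ _) (S.BN0 _ _ _ _)

theorem g0 (v σ) : 0 ≤ S.g v σ := mul_nonneg (S.A0 _ _ _ _) (S.BE0 _ _ _ _)

theorem F0 (v) : 0 ≤ S.F v := sum_nonneg fun σ _ => S.f0 v σ

theorem G0 (v) : 0 ≤ S.G v := sum_nonneg fun σ _ => S.g0 v σ

theorem sum_F (hK : Fintype.card K = 16) : ∑ v, S.F v = 6720 := by
  unfold F
  rw [sum_comm]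
  have : ∀ σ ∈ St K, ∑ v, S.f v σ = 1 := fun σ _ => S.hN _ _ _ _ _ _
  rw [sum_congr rfl this, sum_const, card_St hK]
  norm_num

theorem sum_G (hK : Fintype.card K = 16) : ∑ v, S.G v = 6720 := by
  unfold G
  rw [sum_comm]
  have : ∀ σ ∈ St K, ∑ v, S.g v σ = 1 := fun σ _ => S.hE _ _ _ _ _ _
  rw [sum_congr rfl this, sum_const, card_St hK]
  norm_num

/-- All states compatible with the leaf have certificate `c`. -/
def IsStar (v : V) (c : K) : Prop := ∀ σ ∈ St K, σ.2.1 ≠ c → S.f v σ = 0 ∧ S.g v σ = 0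

theorem star_or (hK : Fintype.card K = 16) (v : V) :
    (∃ c, S.IsStar v c) ∨ ∃ T : Finset (Bool × K × K × K), T ⊆ St K ∧ T.card ≤ 256 ∧
      ∀ σ ∈ St K, σ ∉ T → S.f v σ = 0 ∧ S.g v σ = 0 := by
  classical
  let T := (St K).filter (fun σ => 0 < S.f v σ ∨ 0 < S.g v σ)
  have hout : ∀ σ ∈ St K, σ ∉ T → S.f v σ = 0 ∧ S.g v σ = 0 := by
    intro σ hσ hT
    have : ¬ (0 < S.f v σ ∨ 0 < S.g v σ) := fun h => hT (mem_filter.2 ⟨hσ, h⟩)
    push Not at this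
    exact ⟨le_antisymm this.1 (S.f0 v σ), le_antisymm this.2 (S.g0 v σ)⟩
  have hA : ∀ σ ∈ T, 0 < S.A v σ.1 σ.2.1 σ.2.2.1 := by
    intro σ hσ
    rcases (mem_filter.1 hσ).2 with h | h
    · exact pos_of_mul_pos_left h (S.BN0 _ _ _ _)
    · exact pos_of_mul_pos_left h (S.BE0 _ _ _ _)
  have hB : ∀ σ ∈ T, 0 < S.BN v σ.1 σ.2.1 σ.2.2.2 ∨ 0 < S.BE v σ.1 σ.2.1 σ.2.2.2 := by
    intro σ hσ
    rcases (mem_filter.1 hσ).2 with h | h
    · exact Or.inl (pos_of_mul_pos_right h (S.A0 _ _ _ _))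
    · exact Or.inr (pos_of_mul_pos_right h (S.A0 _ _ _ _))
  rcases S.mono v with hm | hm
  · have hres := star_or_few hK T (fun σ hσ => mem_Tr.1 (mem_St.1 (mem_filter.1 hσ).1))
      (fun σ hσ τ hτ => hm _ _ _ _ _ _ (hA σ hσ) (hB τ hτ))
    rcases hres with h | h
    · obtain ⟨c, hc⟩ := h
      left
      refine ⟨c, fun σ hσ hne => hout σ hσ (fun hT => hne (hc σ hT))⟩
    · right
      exact ⟨T, filter_subset _ _, h, hout⟩
  · right
    refine ⟨∅, empty_subset _, by simp, fun σ hσ _ => hout σ hσ ?_⟩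
    intro hT
    refine hm _ _ _ _ _ _ (hA σ hT) (hB σ hT) ⟨σ.2.1, ?_⟩
    rw [mem_inter]
    exact ⟨mem_insert_self _ _, mem_insert_self _ _⟩

open Classical in
/-- The certificate of a star leaf. -/
noncomputable def cv [Nonempty K] (v : V) : K :=
  if h : ∃ c, S.IsStar v c then h.choose else Classical.arbitrary K

variable [Nonempty K] [DecidableEq V]

theorem cv_spec {v : V} (h : ∃ c, S.IsStar v c) : S.IsStar v (S.cv v) := by
  unfold cv
  rw [dif_pos h]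
  exact h.choose_spec

open Classical in
noncomputable def Vs : Finset V := univ.filter fun v => ∃ c, S.IsStar v c

theorem mem_Vs {v : V} : v ∈ S.Vs ↔ ∃ c, S.IsStar v c := by
  simp [Vs]

def Good (v : V) : Prop := v ∈ S.Vs ∧ ∀ s e h, s ≠ S.cv v → e ≠ S.cv v →
  3 / 4 * S.A v h (S.cv v) s ≤ S.A v false (S.cv v) e

theorem sum_star {v : V} {φ : Bool × K × K × K → ℝ}
    (hφ : ∀ σ ∈ St K, σ.2.1 ≠ S.cv v → φ σ = 0) :
    ∑ σ ∈ St K, φ σ = ∑ τ ∈ Trc (S.cv v), (φ (false, τ) + φ (true, τ)) := by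
  rw [← sum_Stc]
  symm
  apply sum_subset (filter_subset _ _)
  intro σ hσ hn
  refine hφ σ hσ fun h => hn (mem_filter.2 ⟨hσ, h⟩)

theorem F_star {v : V} (hv : v ∈ S.Vs) :
    S.F v = ∑ τ ∈ Trc (S.cv v), (S.f v (false, τ) + S.f v (true, τ)) :=
  S.sum_star fun σ hσ h => (S.cv_spec (S.mem_Vs.1 hv) σ hσ h).1

theorem G_star {v : V} (hv : v ∈ S.Vs) :
    S.G v = ∑ τ ∈ Trc (S.cv v), (S.g v (false, τ) + S.g v (true, τ)) :=
  S.sum_star fun σ hσ h => (S.cv_spec (S.mem_Vs.1 hv) σ hσ h).2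

/-- First defect. -/
noncomputable def d1 (v : V) : ℝ := ∑ τ ∈ Trc (S.cv v),
  ((√(S.f v (false, τ)) - √(S.F v / 420)) ^ 2 + (√(S.f v (true, τ)) - √(S.F v / 420)) ^ 2)

/-- Cross weights. -/
def X (v : V) (τ : K × K × K) : ℝ :=
  S.A v false τ.1 τ.2.1 * S.BN v true τ.1 τ.2.2 + S.A v true τ.1 τ.2.1 * S.BN v false τ.1 τ.2.2

/-- Second defect. -/
noncomputable def d2 (v : V) : ℝ := ∑ τ ∈ Trc (S.cv v),
  (√(S.A v false τ.1 τ.2.1 * S.BN v true τ.1 τ.2.2)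
    - √(S.A v true τ.1 τ.2.1 * S.BN v false τ.1 τ.2.2)) ^ 2

theorem d1_nonneg (v : V) : 0 ≤ S.d1 v := sum_nonneg fun _ _ => by positivity

theorem d2_nonneg (v : V) : 0 ≤ S.d2 v := sum_nonneg fun _ _ => by positivity

theorem X_nonneg (v : V) (τ : K × K × K) : 0 ≤ S.X v τ :=
  add_nonneg (mul_nonneg (S.A0 _ _ _ _) (S.BN0 _ _ _ _)) (mul_nonneg (S.A0 _ _ _ _) (S.BN0 _ _ _ _))

theorem d2_le {v : V} (hv : v ∈ S.Vs) :
    S.d2 v ≤ (∑ τ ∈ Trc (S.cv v), S.X v τ) - S.F v + 2 * S.d1 v := by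
  rw [S.F_star hv, d1, d2, mul_sum, ← sum_sub_distrib, ← sum_add_distrib]
  apply sum_le_sum
  intro τ _
  unfold X
  simp only [f]
  set u := √(S.F v / 420)
  rw [Real.sqrt_mul (S.A0 _ _ _ _), Real.sqrt_mul (S.A0 _ _ _ _), Real.sqrt_mul (S.A0 _ _ _ _),
    Real.sqrt_mul (S.A0 _ _ _ _)]
  have e1 := Real.sq_sqrt (S.A0 v false τ.1 τ.2.1)
  have e2 := Real.sq_sqrt (S.A0 v true τ.1 τ.2.1)
  have e3 := Real.sq_sqrt (S.BN0 v false τ.1 τ.2.2)
  have e4 := Real.sq_sqrt (S.BN0 v true τ.1 τ.2.2)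
  set p := √(S.A v false τ.1 τ.2.1)
  set q := √(S.A v true τ.1 τ.2.1)
  set r := √(S.BN v false τ.1 τ.2.2)
  set w := √(S.BN v true τ.1 τ.2.2)
  rw [← e1, ← e2, ← e3, ← e4]
  nlinarith [sq_nonneg ((p * r - u) + (q * w - u))]

theorem sum_X (hK : Fintype.card K = 16) :
    ∑ v ∈ S.Vs, ∑ τ ∈ Trc (S.cv v), S.X v τ ≤ 6720 := by
  calc ∑ v ∈ S.Vs, ∑ τ ∈ Trc (S.cv v), S.X v τ
      ≤ ∑ v ∈ S.Vs, ∑ τ ∈ Tr K, S.X v τ :=
        sum_le_sum fun v _ => sum_le_sum_of_subset_of_nonneg (filter_subset _ _)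
          fun τ _ _ => S.X_nonneg v τ
    _ ≤ ∑ v, ∑ τ ∈ Tr K, S.X v τ :=
        sum_le_sum_of_subset_of_nonneg (subset_univ _)
          fun v _ _ => sum_nonneg fun τ _ => S.X_nonneg v τ
    _ = ∑ τ ∈ Tr K, ∑ v, S.X v τ := sum_comm
    _ = ∑ τ ∈ Tr K, (2 : ℝ) := by
        apply sum_congr rfl
        intro τ _
        unfold X
        rw [sum_add_distrib, S.hN, S.hN]
        norm_num
    _ = 6720 := by
        rw [sum_const, card_Tr hK]; norm_num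

/-- Total mass outside the star leaves. -/
noncomputable def Fns : ℝ := ∑ v ∈ univ \ S.Vs, S.F v

theorem Fns_nonneg : 0 ≤ S.Fns := sum_nonneg fun v _ => S.F0 v

theorem sum_d2 (hK : Fintype.card K = 16) :
    ∑ v ∈ S.Vs, S.d2 v ≤ S.Fns + 2 * ∑ v ∈ S.Vs, S.d1 v := by
  have h1 : ∑ v ∈ S.Vs, S.d2 v ≤
      ∑ v ∈ S.Vs, ((∑ τ ∈ Trc (S.cv v), S.X v τ) - S.F v + 2 * S.d1 v) :=
    sum_le_sum fun v hv => S.d2_le hv
  rw [sum_add_distrib, sum_sub_distrib, ← mul_sum] at h1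
  have h2 := S.sum_X hK
  have h3 := S.sum_F hK
  have h4 : ∑ v ∈ univ \ S.Vs, S.F v + ∑ v ∈ S.Vs, S.F v = ∑ v, S.F v :=
    sum_sdiff (subset_univ _)
  unfold Fns
  linarith

theorem bad_le (hK : Fintype.card K = 16) {v : V} (hv : v ∈ S.Vs) (hg : ¬ S.Good v) :
    S.F v ≤ 1050000 * (S.d1 v + S.d2 v) := by
  have h1 := S.d1_nonneg v
  have h2 := S.d2_nonneg v
  rcases (S.F0 v).eq_or_lt with h | h
  · rw [← h]; positivity
  · unfold Good at hg
    push Not at hg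
    obtain ⟨s, e, h', hs, he, hlt⟩ := hg hv
    have := not_good hK (S.cv v) (fun h s => S.A v h (S.cv v) s) (fun h e => S.BN v h (S.cv v) e)
      (fun _ _ => S.A0 _ _ _ _) h hs he hlt
    have e1 : (∑ τ ∈ Trc (S.cv v),
        ((√(S.A v false (S.cv v) τ.2.1 * S.BN v false (S.cv v) τ.2.2) - √(S.F v / 420)) ^ 2
        + (√(S.A v true (S.cv v) τ.2.1 * S.BN v true (S.cv v) τ.2.2) - √(S.F v / 420)) ^ 2))
        = S.d1 v := by
      unfold d1 f
      apply sum_congr rfl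
      intro τ hτ
      rw [(mem_Trc.1 hτ).2]
    have e2 : (∑ τ ∈ Trc (S.cv v), (√(S.A v false (S.cv v) τ.2.1 * S.BN v true (S.cv v) τ.2.2)
        - √(S.A v true (S.cv v) τ.2.1 * S.BN v false (S.cv v) τ.2.2)) ^ 2) = S.d2 v := by
      unfold d2
      apply sum_congr rfl
      intro τ hτ
      rw [(mem_Trc.1 hτ).2]
    rw [e1, e2] at this
    linarith

open Classical in
/-- The mass of the leaves that are not good, in the normal world. -/
theorem sum_bad (hK : Fintype.card K = 16) :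
    ∑ v ∈ univ.filter (fun v => ¬ S.Good v), S.F v
      ≤ 3150000 * (∑ v ∈ S.Vs, S.d1 v + 2 / 5 * S.Fns) := by
  have hsplit : univ.filter (fun v => ¬ S.Good v) ⊆
      (univ \ S.Vs) ∪ S.Vs.filter (fun v => ¬ S.Good v) := by
    intro v hv
    rw [mem_filter] at hv
    rw [mem_union, mem_sdiff, mem_filter]
    by_cases h : v ∈ S.Vs
    · exact Or.inr ⟨h, hv.2⟩
    · exact Or.inl ⟨mem_univ _, h⟩
  have h1 : ∑ v ∈ univ.filter (fun v => ¬ S.Good v), S.F v ≤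
      ∑ v ∈ univ \ S.Vs, S.F v + ∑ v ∈ S.Vs.filter (fun v => ¬ S.Good v), S.F v := by
    refine (sum_le_sum_of_subset_of_nonneg hsplit fun v _ _ => S.F0 v).trans ?_
    have hd : Disjoint (univ \ S.Vs) (S.Vs.filter (fun v => ¬ S.Good v)) := by
      rw [disjoint_left]
      intro v h1 h2
      exact (mem_sdiff.1 h1).2 (mem_filter.1 h2).1
    rw [sum_union hd]
  have h2 : ∑ v ∈ S.Vs.filter (fun v => ¬ S.Good v), S.F v ≤
      ∑ v ∈ S.Vs, 1050000 * (S.d1 v + S.d2 v) := by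
    refine (sum_le_sum fun v hv => S.bad_le hK (mem_filter.1 hv).1 (mem_filter.1 hv).2).trans ?_
    refine sum_le_sum_of_subset_of_nonneg (filter_subset _ _) fun v _ _ => ?_
    have h1 := S.d1_nonneg v
    have h2 := S.d2_nonneg v
    positivity
  rw [← mul_sum, sum_add_distrib] at h2
  have h3 := S.sum_d2 hK
  have h4 := S.Fns_nonneg
  have h5 : ∑ v ∈ univ \ S.Vs, S.F v = S.Fns := rfl
  rw [h5] at h1
  linarith

open Classical in
/-- The mass of the good leaves when Bob does not know `h`. -/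
theorem sum_good (hK : Fintype.card K = 16) :
    ∑ v ∈ univ.filter (fun v => S.Good v), S.G v ≤ 4480 := by
  let H : V → K → K → ℝ := fun v c e => S.A v false c e * S.BE v false c e
  have hH0 : ∀ v c e, 0 ≤ H v c e := fun v c e => mul_nonneg (S.A0 _ _ _ _) (S.BE0 _ _ _ _)
  have h1 : ∀ v ∈ univ.filter (fun v => S.Good v), S.G v ≤
      4 / 3 * ∑ τ ∈ Tr K, ((if S.cv v = τ.1 then H v τ.1 τ.2.2 else 0)
        + (if S.cv v = τ.1 then H v τ.2.2 τ.1 else 0)) := by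
    intro v hv
    have hg := (mem_filter.1 hv).2
    rw [S.G_star hg.1, mul_sum]
    have h2 : ∀ τ ∈ Trc (S.cv v), S.g v (false, τ) + S.g v (true, τ) ≤
        4 / 3 * ((if S.cv v = τ.1 then H v τ.1 τ.2.2 else 0)
        + (if S.cv v = τ.1 then H v τ.2.2 τ.1 else 0)) := by
      intro τ hτ
      obtain ⟨hτ1, hτ2⟩ := mem_Trc.1 hτ
      rw [mem_Tr] at hτ1
      rw [if_pos hτ2.symm, if_pos hτ2.symm]
      simp only [g, H]
      have e1 := hg.2 τ.2.1 τ.2.2 false (by rw [← hτ2]; exact hτ1.1.symm)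
        (by rw [← hτ2]; exact hτ1.2.1.symm)
      have e2 := hg.2 τ.2.1 τ.2.2 true (by rw [← hτ2]; exact hτ1.1.symm)
        (by rw [← hτ2]; exact hτ1.2.1.symm)
      rw [← hτ2] at e1 e2
      rw [S.Asym v false τ.2.2 τ.1, ← S.BEsym v τ.2.2 τ.1]
      have b1 := S.BE0 v false τ.1 τ.2.2
      have b2 := S.BE0 v false τ.2.2 τ.1
      nlinarith [mul_le_mul_of_nonneg_right e1 b1, mul_le_mul_of_nonneg_right e2 b2]
    refine (sum_le_sum h2).trans ?_
    refine sum_le_sum_of_subset_of_nonneg (filter_subset _ _) fun τ _ _ => ?_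
    have a1 := hH0 v τ.1 τ.2.2
    have a2 := hH0 v τ.2.2 τ.1
    split_ifs <;> positivity
  have h3 : ∑ v ∈ univ.filter (fun v => S.Good v), S.G v ≤
      ∑ v, 4 / 3 * ∑ τ ∈ Tr K, ((if S.cv v = τ.1 then H v τ.1 τ.2.2 else 0)
        + (if S.cv v = τ.1 then H v τ.2.2 τ.1 else 0)) := by
    refine (sum_le_sum h1).trans ?_
    refine sum_le_sum_of_subset_of_nonneg (subset_univ _) fun v _ _ => ?_
    refine mul_nonneg (by norm_num) (sum_nonneg fun τ _ => ?_)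
    have a1 := hH0 v τ.1 τ.2.2
    have a2 := hH0 v τ.2.2 τ.1
    split_ifs <;> positivity
  have h4 : ∀ v, ∑ τ ∈ Tr K, ((if S.cv v = τ.1 then H v τ.1 τ.2.2 else 0)
        + (if S.cv v = τ.1 then H v τ.2.2 τ.1 else 0)) ≤ ∑ τ ∈ Tr K, H v τ.1 τ.2.2 := by
    intro v
    rw [sum_add_distrib,
      ← sum_Tr_swap (fun c _ e => if S.cv v = e then H v c e else 0), ← sum_add_distrib]
    apply sum_le_sum
    intro τ hτ
    rw [mem_Tr] at hτ
    have a1 := hH0 v τ.1 τ.2.2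
    by_cases c1 : S.cv v = τ.1
    · have c2 : S.cv v ≠ τ.2.2 := by rw [c1]; exact hτ.2.1
      rw [if_pos c1, if_neg c2, add_zero]
    · rw [if_neg c1, zero_add]
      split_ifs
      · exact le_refl _
      · exact a1
  calc _ ≤ _ := h3
    _ ≤ ∑ v, 4 / 3 * ∑ τ ∈ Tr K, H v τ.1 τ.2.2 :=
        sum_le_sum fun v _ => mul_le_mul_of_nonneg_left (h4 v) (by norm_num)
    _ = 4 / 3 * ∑ τ ∈ Tr K, ∑ v, H v τ.1 τ.2.2 := by rw [← mul_sum, sum_comm]
    _ = 4 / 3 * ∑ τ ∈ Tr K, (1 : ℝ) := by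
        congr 1
        apply sum_congr rfl
        intro τ _
        exact S.hE _ _ _ _ _ _
    _ = 4480 := by
        rw [sum_const, card_Tr hK]; norm_num

end Sys

end H287R3.Ext
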