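import Pool.Agent.H287R3.Ext.Prod

/-! Upper bound for the amortized communication. -/

namespace ExtInfo

open Finset H287R3.Ext

theorem Ex_unit {X Y : Type} [Fintype X] [Fintype Y] (μ : X → Y → ℝ) (G : X → Y → ℝ) :
    Ex (powerDist Unit μ) (fun x y => G (x ()) (y ())) = Ex μ G := by
  unfold Ex
  rw [← (Equiv.funUnique Unit X).symm.sum_comp]
  apply sum_congr rfl
  intro x _
  rw [← (Equiv.funUnique Unit Y).symm.sum_comp]
  apply sum_congr rfl
  intro y _
  have : powerDist Unit μ ((Equiv.funUnique Unit X).symm x) ((Equiv.funUnique Unit Y).symm y)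
      = μ x y := by
    unfold powerDist
    rw [Fintype.prod_unique]
    rfl
  rw [this]
  rfl

namespace Enc

variable {K X Y : Type} (E : Enc K X Y)

theorem er_yN (h : Bool) (c e : K) : E.er (E.yN h c e) = false := by
  unfold yN
  cases h <;> simp [E.er_mk]

theorem er_yE (h : Bool) (c e : K) : E.er (E.yE h c e) = true := by
  unfold yE
  cases h <;> simp [E.er_mk]

theorem z_yN (h : Bool) (c e : K) : E.z (E.yN h c e) = h := by
  unfold yN
  cases h <;> simp [E.z_mk]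

theorem t_yN (h : Bool) (c e : K) : E.t (E.yN h c e) h = c := by
  unfold yN
  cases h <;> simp [E.t0_mk, E.t1_mk]

theorem t_yE (h : Bool) (c e : K) : E.t (E.yE h c e) h = c := by
  unfold yE
  cases h <;> simp [E.t0_mk, E.t1_mk]

variable [DecidableEq K] [Fintype K]

theorem supp {ε : ℝ} {x : X} {y : Y} (h : E.μ ε x y ≠ 0) : Supp E x y := by
  unfold μ at h
  obtain ⟨σ, _, hσ⟩ := exists_ne_zero_of_sum_ne_zero h
  by_cases h1 : x = E.mkX σ.1 σ.2.1 σ.2.2.1 ∧ y = E.yN σ.1 σ.2.1 σ.2.2.2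
  · obtain ⟨rfl, rfl⟩ := h1
    constructor
    · rw [E.hx_mk, E.t_yN, E.mem_mk]
      exact Or.inl rfl
    · intro _
      rw [E.z_yN, E.hx_mk]
  · by_cases h2 : x = E.mkX σ.1 σ.2.1 σ.2.2.1 ∧ y = E.yE σ.1 σ.2.1 σ.2.2.2
    · obtain ⟨rfl, rfl⟩ := h2
      constructor
      · rw [E.hx_mk, E.t_yE, E.mem_mk]
        exact Or.inl rfl
      · intro h3
        rw [E.er_yE] at h3
        exact absurd h3 (by simp)
    · exfalso
      apply hσ
      rw [if_neg h1, if_neg h2]
      ring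

variable [Fintype X] [Fintype Y]

theorem Ex_er (hK : Fintype.card K = 16) (ε : ℝ) :
    Ex (E.μ ε) (fun _ y => if E.er y = true then (1 : ℝ) else 0) = ε := by
  unfold Ex
  rw [E.sum_μ ε (fun _ y => if E.er y = true then (1 : ℝ) else 0)]
  simp only [E.er_yN, E.er_yE, Bool.false_eq_true, if_false, if_true, mul_zero, zero_add, mul_one,
    sum_const, card_St hK]
  norm_num
  ring

theorem Ex_N (hK : Fintype.card K = 16) {ε : ℝ} (h0 : 0 ≤ ε) (h1 : ε ≤ 1) : (r : ℕ) →
    Ex (powerDist (D r) (E.μ ε)) (fun _ y => N E y) = 2 ^ r * ε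
  | 0 => by
    have h := Ex_unit (E.μ ε) (fun _ y => if E.er y = true then (1 : ℝ) else 0)
    rw [E.Ex_er hK ε] at h
    rw [pow_zero, one_mul]
    refine Eq.trans ?_ h
    congr 1
    funext x y
    exact Fintype.sum_unique (ι := Unit) _
  | r + 1 => by
    have e : ∀ y : D (r + 1) → Y, N E y = N E (fun i => y (Sum.inl i)) +
        N E (fun i => y (Sum.inr i)) := fun y => sum_D r _
    have e1 := Ex_inl (ι := D r) (κ := D r) (E.μ_dist hK h0 h1) (fun _ y => N E y)
    have e2 := Ex_inr (ι := D r) (κ := D r) (E.μ_dist hK h0 h1) (fun _ y => N E y)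
    rw [Ex_N hK h0 h1 r] at e1 e2
    have e3 := Ex_add (powerDist (D r ⊕ D r) (E.μ ε))
      (fun _ (y : D r ⊕ D r → Y) => N E (fun i => y (Sum.inl i)))
      (fun _ (y : D r ⊕ D r → Y) => N E (fun i => y (Sum.inr i)))
    rw [e1, e2] at e3
    simp only [e]
    refine Eq.trans e3 ?_
    ring

theorem Ex_pairs (hK : Fintype.card K = 16) {ε : ℝ} (h0 : 0 ≤ ε) (h1 : ε ≤ 1) : (r : ℕ) →
    Ex (powerDist (D r) (E.μ ε)) (fun _ y => N E y * (N E y - 1) / 2) ≤ 4 ^ r * ε ^ 2 / 2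
  | 0 => by
    have e : (fun (_ : D 0 → X) (y : D 0 → Y) => N E y * (N E y - 1) / 2) = fun _ _ => 0 := by
      funext x y
      have : N E y = if E.er (y ()) = true then (1 : ℝ) else 0 :=
        Fintype.sum_unique (ι := Unit) _
      rw [this]
      split_ifs <;> norm_num
    rw [e, Ex_const (powerDist_dist (E.μ_dist hK h0 h1))]
    positivity
  | r + 1 => by
    have e : ∀ y : D (r + 1) → Y, N E y = N E (fun i => y (Sum.inl i)) +
        N E (fun i => y (Sum.inr i)) := fun y => sum_D r _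
    have e' : ∀ y : D (r + 1) → Y, N E y * (N E y - 1) / 2 =
        (N E (fun i => y (Sum.inl i)) * (N E (fun i => y (Sum.inl i)) - 1) / 2
        + N E (fun i => y (Sum.inr i)) * (N E (fun i => y (Sum.inr i)) - 1) / 2)
        + N E (fun i => y (Sum.inl i)) * N E (fun i => y (Sum.inr i)) := by
      intro y
      rw [e]; ring
    have e1 := Ex_inl (ι := D r) (κ := D r) (E.μ_dist hK h0 h1)
      (fun _ y => N E y * (N E y - 1) / 2)
    have e2 := Ex_inr (ι := D r) (κ := D r) (E.μ_dist hK h0 h1)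
      (fun _ y => N E y * (N E y - 1) / 2)
    have e3 := Ex_prod (ι := D r) (κ := D r) (E.μ ε) (fun _ y => N E y) (fun _ y => N E y)
    have e4 := Ex_add (powerDist (D r ⊕ D r) (E.μ ε))
      (fun _ (y : D r ⊕ D r → Y) => N E (fun i => y (Sum.inl i)) *
        (N E (fun i => y (Sum.inl i)) - 1) / 2)
      (fun _ (y : D r ⊕ D r → Y) => N E (fun i => y (Sum.inr i)) *
        (N E (fun i => y (Sum.inr i)) - 1) / 2)
    have e5 := Ex_add (powerDist (D r ⊕ D r) (E.μ ε))
      (fun _ (y : D r ⊕ D r → Y) => N E (fun i => y (Sum.inl i)) *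
        (N E (fun i => y (Sum.inl i)) - 1) / 2 + N E (fun i => y (Sum.inr i)) *
        (N E (fun i => y (Sum.inr i)) - 1) / 2)
      (fun _ (y : D r ⊕ D r → Y) => N E (fun i => y (Sum.inl i)) *
        N E (fun i => y (Sum.inr i)))
    rw [e3, e4, e1, e2, E.Ex_N hK h0 h1 r] at e5
    simp only [e']
    refine (le_of_eq e5).trans ?_
    have ih := Ex_pairs hK h0 h1 r
    have h4 : (4 : ℝ) ^ r = 2 ^ r * 2 ^ r := by
      rw [← mul_pow]; norm_num
    have h5 : (4 : ℝ) ^ (r + 1) * ε ^ 2 / 2 = 4 ^ r * ε ^ 2 / 2 + 4 ^ r * ε ^ 2 / 2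
        + (2 ^ r * ε) * (2 ^ r * ε) := by
      rw [pow_succ, h4]; ring
    rw [h5]
    linarith

theorem Ex_W (hK : Fintype.card K = 16) {ε : ℝ} (h0 : 0 ≤ ε) (h1 : ε ≤ 1) : (r : ℕ) →
    Ex (powerDist (D r) (E.μ ε)) (fun _ y => W E r y) ≤ 4 ^ r * ε ^ 2
  | 0 => by
    have e : (fun (_ : D 0 → X) (y : D 0 → Y) => W E 0 y) = fun _ _ => 0 := rfl
    rw [e, Ex_const (powerDist_dist (E.μ_dist hK h0 h1))]
    positivity
  | r + 1 => by
    have e1 := Ex_inl (ι := D r) (κ := D r) (E.μ_dist hK h0 h1) (fun _ y => W E r y)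
    have e2 := Ex_inr (ι := D r) (κ := D r) (E.μ_dist hK h0 h1) (fun _ y => W E r y)
    have e4 := Ex_add (powerDist (D r ⊕ D r) (E.μ ε))
      (fun _ (y : D r ⊕ D r → Y) => N E y * (N E y - 1) / 2)
      (fun _ (y : D r ⊕ D r → Y) => W E r (fun i => y (Sum.inl i)))
    have e5 := Ex_add (powerDist (D r ⊕ D r) (E.μ ε))
      (fun _ (y : D r ⊕ D r → Y) => N E y * (N E y - 1) / 2
        + W E r (fun i => y (Sum.inl i)))
      (fun _ (y : D r ⊕ D r → Y) => W E r (fun i => y (Sum.inr i)))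
    rw [e4, e1, e2] at e5
    refine (le_of_eq e5).trans ?_
    have ih := Ex_W hK h0 h1 r
    have hp : Ex (powerDist (D r ⊕ D r) (E.μ ε)) (fun _ y => N E y * (N E y - 1) / 2) ≤
      4 ^ (r + 1) * ε ^ 2 / 2 := E.Ex_pairs hK h0 h1 (r + 1)
    have h5 : (4 : ℝ) ^ (r + 1) * ε ^ 2 = 4 ^ (r + 1) * ε ^ 2 / 2 + 4 ^ r * ε ^ 2
        + 4 ^ r * ε ^ 2 := by
      rw [pow_succ]; ring
    rw [h5]
    linarith

theorem CC_block [DecidableEq X] [DecidableEq Y] (hK : Fintype.card K = 16)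
    (code : K ≃ (Fin 4 → Bool)) {ε : ℝ} (h0 : 0 ≤ ε) (h1 : ε ≤ 1) (r : ℕ) :
    CCavg (power (D r) E.F) (powerDist (D r) (E.μ ε)) ≤
      4 * 2 ^ r + 3 + 4 * (4 ^ r * ε ^ 2) := by
  have hd : IsDistribution (powerDist (D r) (E.μ ε)) := powerDist_dist (E.μ_dist hK h0 h1)
  refine (CCavg_le hd.1 (block_zeroError E code r)).trans ?_
  rw [expBits_Ex]
  have h2 : Ex (powerDist (D r) (E.μ ε)) (bits (block E code r)) ≤
      Ex (powerDist (D r) (E.μ ε)) (fun _ y => (4 * 2 ^ r + 3) + 4 * W E r y) := by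
    apply Ex_mono hd.1
    intro x y hxy
    apply block_bits
    intro i
    apply E.supp (ε := ε)
    intro h
    apply hxy
    exact prod_eq_zero (mem_univ i) h
  refine h2.trans ?_
  rw [Ex_add, Ex_const hd, Ex_smul]
  have := E.Ex_W hK h0 h1 r
  linarith

/-- The main theorem for an encoding. -/
theorem main [DecidableEq X] [DecidableEq Y] [Nonempty K] (hK : Fintype.card K = 16)
    (code : K ≃ (Fin 4 → Bool)) : ∃ μ : X → Y → ℝ, IsDistribution μ ∧ ∃ L : ℝ,
      Filter.Tendsto (fun n : ℕ => CCavg (power (Fin n) E.F) (powerDist (Fin n) μ) / (n : ℝ))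
        Filter.atTop (nhds L) ∧ L < ICext E.F μ := by
  set ε : ℝ := 1 / 2 ^ 64 with hε
  have h0 : 0 < ε := by positivity
  have h2 : ε ≤ 1 / 2 := by rw [hε]; norm_num
  have h1 : ε ≤ 1 := h2.trans (by norm_num)
  have hd := E.μ_dist hK h0.le h1
  refine ⟨E.μ ε, hd, (subadditive E.F false hd).lim,
    (subadditive E.F false hd).tendsto_lim (bdd E.F hd), ?_⟩
  have hup : (subadditive E.F false hd).lim ≤ 4 + 7 * ε := by
    have h3 := (subadditive E.F false hd).lim_le_div (bdd E.F hd) (n := 2 ^ 64)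
      (by norm_num)
    refine h3.trans ?_
    have h4 : CCavg (power (Fin (2 ^ 64)) E.F) (powerDist (Fin (2 ^ 64)) (E.μ ε)) ≤
        4 * 2 ^ 64 + 3 + 4 * (4 ^ 64 * ε ^ 2) :=
      (CCavg_equiv (Fintype.equivFinOfCardEq (card_D 64)) E.F false hd).trans
        (E.CC_block hK code h0.le h1 64)
    have h5 : (4 * 2 ^ 64 + 3 + 4 * (4 ^ 64 * ε ^ 2) : ℝ) = (4 + 7 * ε) * 2 ^ 64 := by
      rw [hε]; norm_num
    rw [div_le_iff₀ (by positivity)]
    rw [h5] at h4
    refine h4.trans (le_of_eq ?_)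
    push_cast
    norm_num
  have hlow : 4 + 7 * ε < ICext E.F (E.μ ε) := by
    have hpos : (0 : ℝ) < 2 ^ 64 / 6300000 := by positivity
    have hγ : (18 : ℝ) ≤ Real.log (2 ^ 64 / 6300000) := by
      rw [Real.le_log_iff_exp_le hpos]
      have he := Real.exp_one_lt_d9
      have h18 : Real.exp 18 = Real.exp 1 ^ 18 := by
        rw [← Real.exp_nat_mul]; norm_num
      rw [h18]
      have h3 : Real.exp 1 ^ 18 ≤ (3 : ℝ) ^ 18 :=
        pow_le_pow_left₀ (Real.exp_pos 1).le (by linarith) 18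
      refine h3.trans ?_
      norm_num
    have hlog2 : 0 < Real.log 2 := Real.log_pos (by norm_num)
    have hlog2' := Real.log_two_lt_d9
    have key : 4 + ε * (Real.log (2 ^ 64 / 6300000) / 3 - 1) / Real.log 2
        ≤ ICext E.F (E.μ ε) := by
      apply le_ICext false
      intro t ht
      apply E.extInfo_lower hK h0 h2 (by linarith) _ t ht
      rw [Real.exp_log hpos, hε]
      norm_num
    refine lt_of_lt_of_le ?_ key
    have h6 : 7 < (Real.log (2 ^ 64 / 6300000) / 3 - 1) / Real.log 2 := by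
      rw [lt_div_iff₀ hlog2]
      linarith
    have h7 : ε * (Real.log (2 ^ 64 / 6300000) / 3 - 1) / Real.log 2 =
        ε * ((Real.log (2 ^ 64 / 6300000) / 3 - 1) / Real.log 2) := by ring
    rw [h7]
    have := mul_lt_mul_of_pos_left h6 h0
    linarith
  linarith

end Enc

end ExtInfo
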